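import Pool.Agent.Q60.MU.Coind

/-!
# Coinvariants of one subgroup in terms of the coinvariants of a family
-/

set_option autoImplicit false

open Module

namespace Pool.Agent.U463.MD

open Pool.Agent.Q60.MU

section rep

variable {k : Type} [Field k] {G : Type} [Group G]

/-- Each finite-dimensional representation of `G` over `k` on which `K₀` acts trivially and with nonzero
coinvariants for `H₀` has nonzero coinvariants for some subgroup in the family. -/
def DetectsH (k : Type) [Field k] {G : Type} [Group G] (K₀ H₀ : Subgroup G) {ι : Type} (s : Finset ι)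
    (H : ι → Subgroup G) : Prop :=
  ∀ (S : Type) [AddCommGroup S] [Module k S] [Module.Finite k S] (σ : Representation k G S),
    (∀ g ∈ K₀, ∀ x, σ g x = x) → coinv σ H₀ ≠ ⊤ → ∃ i ∈ s, coinv σ (H i) ≠ ⊤

variable {V : Type} [AddCommGroup V] [Module k V] (ρ : Representation k G V)

theorem quo_coinv {U : Submodule k V} (hU : Stable ρ U) (H : Subgroup G) :
    coinv (quo ρ hU) H = (U ⊔ coinv ρ H).map U.mkQ := by
  rw [Submodule.map_sup, Submodule.mkQ_map_self, bot_sup_eq, coinv, coinv, Submodule.map_span]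
  congr 1
  ext x
  constructor
  · rintro ⟨h, hh, v, rfl⟩
    obtain ⟨y, rfl⟩ := Submodule.mkQ_surjective U v
    exact ⟨ρ h y - y, ⟨h, hh, y, rfl⟩, by rw [map_sub, quo_mk]⟩
  · rintro ⟨_, ⟨h, hh, v, rfl⟩, rfl⟩
    exact ⟨h, hh, U.mkQ v, by rw [map_sub, quo_mk]⟩

theorem quo_coinv_ne {U : Submodule k V} (hU : Stable ρ U) (H : Subgroup G) :
    coinv (quo ρ hU) H ≠ ⊤ ↔ U ⊔ coinv ρ H ≠ ⊤ := by
  rw [quo_coinv, not_iff_not]
  constructor
  · intro h
    have h1 := congrArg (Submodule.comap U.mkQ) h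
    rw [Submodule.comap_top, Submodule.comap_map_mkQ, ← sup_assoc, sup_idem] at h1
    exact h1
  · intro h
    rw [h, Submodule.map_top, Submodule.range_mkQ]

variable {K₀ H₀ : Subgroup G} {ι : Type} {s : Finset ι} {H : ι → Subgroup G}

/-- **The inequality for representations.** -/
theorem finrank_leH [Module.Finite k V] (hidx : K₀.index ≠ 0) (h0 : ∀ g ∈ K₀, ∀ x, ρ g x = x)
    (hdet : DetectsH k K₀ H₀ s H) :
    finrank k (V ⧸ coinv ρ H₀) ≤ K₀.index * ∑ i ∈ s, finrank k (V ⧸ coinv ρ (H i)) := by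
  classical
  have hq : ∀ X : Submodule k V, finrank k (V ⧸ X) = finrank k V - finrank k X := by
    intro X
    have := X.finrank_quotient_add_finrank
    omega
  have key : ∀ (n : ℕ) (W : Submodule k V), Stable ρ W →
      ∑ i ∈ s, finrank k (V ⧸ (W ⊔ coinv ρ (H i))) = n →
      finrank k (V ⧸ (W ⊔ coinv ρ H₀)) ≤ K₀.index * n := by
    intro n
    induction n using Nat.strong_induction_on with
    | _ n ih =>
      intro W hW hn
      by_cases hWt : W ⊔ coinv ρ H₀ = ⊤
      · rw [hq, hWt, finrank_top, Nat.sub_self]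
        exact Nat.zero_le _
      obtain ⟨i, hi, hne⟩ := hdet (V ⧸ W) (quo ρ hW) (by
        intro g hg x
        obtain ⟨y, rfl⟩ := Submodule.mkQ_surjective W x
        rw [quo_mk, h0 g hg]) ((quo_coinv_ne ρ hW H₀).2 hWt)
      rw [quo_coinv_ne] at hne
      obtain ⟨v, hv⟩ : ∃ v, v ∉ W ⊔ coinv ρ (H i) := by
        by_contra hcon
        push Not at hcon
        exact hne (eq_top_iff.2 fun x _ => hcon x)
      have hle : ∀ H' : Subgroup G, W ⊔ coinv ρ H' ≤ (W ⊔ gen ρ v) ⊔ coinv ρ H' :=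
        fun H' => sup_le_sup_right le_sup_left _
      have h1 : ∀ j ∈ s, finrank k (V ⧸ ((W ⊔ gen ρ v) ⊔ coinv ρ (H j))) ≤
          finrank k (V ⧸ (W ⊔ coinv ρ (H j))) := by
        intro j _
        rw [hq, hq]
        have := Submodule.finrank_mono (hle (H j))
        omega
      have h2 : finrank k (V ⧸ ((W ⊔ gen ρ v) ⊔ coinv ρ (H i))) <
          finrank k (V ⧸ (W ⊔ coinv ρ (H i))) := by
        have h3 : W ⊔ coinv ρ (H i) < (W ⊔ gen ρ v) ⊔ coinv ρ (H i) := by
          refine lt_of_le_of_ne (hle (H i)) fun h => hv ?_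
          have h4 : v ∈ (W ⊔ gen ρ v) ⊔ coinv ρ (H i) :=
            Submodule.mem_sup_left (Submodule.mem_sup_right (mem_gen ρ v))
          rw [← h] at h4
          exact h4
        have h5 := Submodule.finrank_lt_finrank_of_lt h3
        have h6 : finrank k ((W ⊔ gen ρ v) ⊔ coinv ρ (H i) : Submodule k V) ≤ finrank k V :=
          Submodule.finrank_le _
        rw [hq, hq]
        omega
      have h3 : ∑ j ∈ s, finrank k (V ⧸ ((W ⊔ gen ρ v) ⊔ coinv ρ (H j))) < n := by
        rw [← hn]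
        exact Finset.sum_lt_sum h1 ⟨i, hi, h2⟩
      have h4 := ih _ h3 (W ⊔ gen ρ v) (hW.sup (gen_stable ρ v)) rfl
      have h5 : finrank k ((W ⊔ gen ρ v) ⊔ coinv ρ H₀ : Submodule k V) ≤
          finrank k (W ⊔ coinv ρ H₀ : Submodule k V) + K₀.index := by
        have e : (W ⊔ gen ρ v) ⊔ coinv ρ H₀ = (W ⊔ coinv ρ H₀) ⊔ gen ρ v := by
          rw [sup_assoc, sup_comm (gen ρ v), ← sup_assoc]
        rw [e]
        exact (Submodule.finrank_add_le_finrank_add_finrank _ _).trans
          (Nat.add_le_add_left (finrank_gen_le ρ hidx h0 v) _)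
      have h6 : finrank k (V ⧸ (W ⊔ coinv ρ H₀)) ≤
          finrank k (V ⧸ ((W ⊔ gen ρ v) ⊔ coinv ρ H₀)) + K₀.index := by
        rw [hq, hq]
        omega
      calc finrank k (V ⧸ (W ⊔ coinv ρ H₀)) ≤ _ := h6
        _ ≤ K₀.index * ∑ j ∈ s, finrank k (V ⧸ ((W ⊔ gen ρ v) ⊔ coinv ρ (H j))) + K₀.index :=
            Nat.add_le_add_right h4 _
        _ = K₀.index * (∑ j ∈ s, finrank k (V ⧸ ((W ⊔ gen ρ v) ⊔ coinv ρ (H j))) + 1) := by
            ring
        _ ≤ K₀.index * n := Nat.mul_le_mul_left _ h3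
  have h := key _ ⊥ (fun g x hx => by
    rw [Submodule.mem_bot] at hx ⊢
    rw [hx, map_zero]) rfl
  have h2 : ∀ H : Subgroup G, finrank k (V ⧸ ((⊥ : Submodule k V) ⊔ coinv ρ H)) =
      finrank k (V ⧸ coinv ρ H) := by
    intro H
    rw [hq, hq, bot_sup_eq]
  rw [h2] at h
  refine h.trans (le_of_eq ?_)
  congr 1
  exact Finset.sum_congr rfl fun j _ => h2 (H j)

end rep

end Pool.Agent.U463.MD
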