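import Pool.Agent.U463.MD.Alg

/-!
# Coinduction of functionals fixed by a subgroup
-/

set_option autoImplicit false

open Module

namespace Pool.Agent.U463.MD

open Pool.Agent.Q60.MU

variable {k : Type} [Field k] {𝔾 : Type} [Group 𝔾] {K D H : Subgroup 𝔾}
  {S : Type} [AddCommGroup S] [Module k S] (σ : Representation k D S)

/-- An element of the coinduced module which is fixed by `H`. -/
theorem Y_existsH (hK : K.Normal) (hKH : K ≤ H) (f₀ : S →ₗ[k] k)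
    (hf : ∀ d ∈ H.subgroupOf D, ∀ x, f₀ (σ d x) = f₀ x) :
    ∃ φ : Y σ K, φ.1 1 = f₀ ∧ ∀ h ∈ H, τY σ K h φ = φ := by
  classical
  let φ₀ : 𝔾 → (S →ₗ[k] k) := fun x =>
    if h : ∃ d : D, (d : 𝔾)⁻¹ * x ∈ H then f₀ ∘ₗ σ (h.choose)⁻¹ else 0
  have hA : ∀ (x : 𝔾) (d : D), (d : 𝔾)⁻¹ * x ∈ H → φ₀ x = f₀ ∘ₗ σ d⁻¹ := by
    intro x d hd
    have h : ∃ d : D, (d : 𝔾)⁻¹ * x ∈ H := ⟨d, hd⟩
    have h1 : φ₀ x = f₀ ∘ₗ σ (h.choose)⁻¹ := dif_pos h
    rw [h1]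
    have h2 : (h.choose)⁻¹ = ((h.choose)⁻¹ * d) * d⁻¹ := by group
    have h3 : (h.choose)⁻¹ * d ∈ H.subgroupOf D := by
      show (((h.choose)⁻¹ * d : D) : 𝔾) ∈ H
      have h4 : (((h.choose)⁻¹ * d : D) : 𝔾) =
          ((h.choose : 𝔾)⁻¹ * x) * ((d : 𝔾)⁻¹ * x)⁻¹ := by
        push_cast
        group
      rw [h4]
      exact H.mul_mem h.choose_spec (H.inv_mem hd)
    rw [h2, map_mul]
    apply LinearMap.ext
    intro s
    rw [LinearMap.comp_apply, LinearMap.comp_apply, Module.End.mul_apply, hf _ h3]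
  have hB : ∀ x : 𝔾, (¬ ∃ d : D, (d : 𝔾)⁻¹ * x ∈ H) → φ₀ x = 0 := fun x h => dif_neg h
  refine ⟨⟨φ₀, fun d₁ x => ?_, fun κ hκ x => ?_⟩, ?_, ?_⟩
  · by_cases h : ∃ d : D, (d : 𝔾)⁻¹ * x ∈ H
    · obtain ⟨d, hd⟩ := h
      rw [hA x d hd, hA (d₁ * x) (d₁ * d) (by
        have h1 : ((d₁ * d : D) : 𝔾)⁻¹ * (d₁ * x) = (d : 𝔾)⁻¹ * x := by
          push_cast
          group
        rw [h1]
        exact hd), mul_inv_rev, map_mul]
      rfl
    · rw [hB x h, hB (d₁ * x) (by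
        rintro ⟨d, hd⟩
        apply h
        refine ⟨d₁⁻¹ * d, ?_⟩
        have h1 : ((d₁⁻¹ * d : D) : 𝔾)⁻¹ * x = (d : 𝔾)⁻¹ * (d₁ * x) := by
          push_cast
          group
        rw [h1]
        exact hd), LinearMap.zero_comp]
  · by_cases h : ∃ d : D, (d : 𝔾)⁻¹ * x ∈ H
    · obtain ⟨d, hd⟩ := h
      rw [hA x d hd, hA (κ * x) d (by
        have h1 : (d : 𝔾)⁻¹ * (κ * x) = ((d : 𝔾)⁻¹ * κ * ((d : 𝔾)⁻¹)⁻¹) * ((d : 𝔾)⁻¹ * x) := by
          group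
        rw [h1]
        exact H.mul_mem (hKH (hK.conj_mem κ hκ _)) hd)]
    · rw [hB x h, hB (κ * x) (by
        rintro ⟨d, hd⟩
        apply h
        refine ⟨d, ?_⟩
        have h1 : (d : 𝔾)⁻¹ * x =
            ((d : 𝔾)⁻¹ * κ⁻¹ * ((d : 𝔾)⁻¹)⁻¹) * ((d : 𝔾)⁻¹ * (κ * x)) := by
          group
        rw [h1]
        exact H.mul_mem (hKH (hK.conj_mem _ (K.inv_mem hκ) _)) hd)]
  · show φ₀ 1 = f₀
    rw [hA 1 1 (by
      push_cast
      rw [inv_one, one_mul]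
      exact H.one_mem), inv_one, map_one]
    rfl
  · intro h hh
    apply Subtype.ext
    funext x
    show φ₀ (x * h) = φ₀ x
    by_cases hx : ∃ d : D, (d : 𝔾)⁻¹ * x ∈ H
    · obtain ⟨d, hd⟩ := hx
      rw [hA x d hd, hA (x * h) d (by
        rw [← mul_assoc]
        exact H.mul_mem hd hh)]
    · rw [hB x hx, hB (x * h) (by
        rintro ⟨d, hd⟩
        apply hx
        refine ⟨d, ?_⟩
        have h1 : (d : 𝔾)⁻¹ * x = ((d : 𝔾)⁻¹ * (x * h)) * h⁻¹ := by group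
        rw [h1]
        exact H.mul_mem hd (H.inv_mem hh))]

/-- Detection by fixed vectors in modules of the big group. -/
theorem exists_vectorH {K D H : Subgroup 𝔾}
    {S : Type} [AddCommGroup S] [Module k S] (σ : Representation k D S)
    [Module.Finite k S] (hD : D.index ≠ 0) (hK : K.Normal) (hKH : K ≤ H)
    (hco : coinv σ (H.subgroupOf D) ≠ ⊤) (Pr : Subgroup 𝔾 → Prop)
    (hPr : ∀ (Q : Type) [AddCommGroup Q] [Module k Q] [Module.Finite k Q]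
      (τ : Representation k 𝔾 Q), (∀ g ∈ K, ∀ x, τ g x = x) →
      (∃ v : Q, v ≠ 0 ∧ H ≤ stab τ v) → ∃ L, Pr L ∧ ∃ v : Q, v ≠ 0 ∧ L ≤ stab τ v) :
    ∃ (L : Subgroup 𝔾) (g : 𝔾), Pr L ∧
      coinv σ ((L.map (MulAut.conj g).toMonoidHom).subgroupOf D) ≠ ⊤ := by
  classical
  obtain ⟨f₀, hf₀, hf⟩ : ∃ f : S →ₗ[k] k, f ≠ 0 ∧ ∀ x ∈ coinv σ (H.subgroupOf D), f x = 0 := by
    obtain ⟨x, hx⟩ : ∃ x, x ∉ coinv σ (H.subgroupOf D) := by
      by_contra hcon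
      push Not at hcon
      exact hco (eq_top_iff.2 fun x _ => hcon x)
    obtain ⟨f, hf1, hf2⟩ := Submodule.exists_le_ker_of_notMem hx
    exact ⟨f, fun h => hf1 (by rw [h]; rfl), fun y hy => hf2 hy⟩
  obtain ⟨φ, hφ1, hφH⟩ := Y_existsH (K := K) σ hK hKH f₀ (by
    intro d hd x
    have h1 := hf (σ d x - x) (Submodule.subset_span ⟨d, hd, x, rfl⟩)
    rwa [map_sub, sub_eq_zero] at h1)
  have hfin : Module.Finite k (Y σ K) := Y_finite σ hD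
  have hφ0 : φ ≠ 0 := by
    rintro rfl
    exact hf₀ hφ1.symm
  obtain ⟨L, hL, ψ, hψ0, hP⟩ := hPr (Y σ K) (τY σ K) (by
    intro κ hκ x
    apply Subtype.ext
    funext y
    rw [τY_apply]
    have h1 : y * κ = (y * κ * y⁻¹) * y := by group
    rw [h1]
    exact x.2.2 _ (hK.conj_mem κ hκ y) y) ⟨φ, hφ0, show H ≤ stab (τY σ K) φ from fun h hh => hφH h hh⟩
  obtain ⟨g, hg⟩ : ∃ g, ψ.1 g ≠ 0 := by
    by_contra h
    push Not at h
    exact hψ0 (Subtype.ext (funext h))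
  refine ⟨L, g, hL, fun htop => ?_⟩
  apply hg
  have h1 : coinv σ ((L.map (MulAut.conj g).toMonoidHom).subgroupOf D) ≤ LinearMap.ker (ψ.1 g) := by
    rw [coinv, Submodule.span_le]
    rintro _ ⟨d, ⟨x, hx, hxd⟩, v, rfl⟩
    have h4 : (d : 𝔾) = g * x * g⁻¹ := hxd.symm
    have h3 : ψ.1 (g * x) = ψ.1 g := by
      have h5 : τY σ K x ψ = ψ := hP hx
      have h6 := congrArg (fun φ : Y σ K => φ.1 g) h5
      exact h6
    have h5 : ψ.1 (d * g) = (ψ.1 g) ∘ₗ σ d⁻¹ := ψ.2.1 d g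
    have h6 : (d : 𝔾) * g = g * x := by rw [h4]; group
    rw [h6, h3] at h5
    have h7 := LinearMap.congr_fun h5 (σ d v)
    rw [LinearMap.comp_apply, ← Module.End.mul_apply, ← map_mul, inv_mul_cancel, map_one] at h7
    rw [SetLike.mem_coe, LinearMap.mem_ker, map_sub, sub_eq_zero]
    exact h7
  rw [htop, top_le_iff, LinearMap.ker_eq_top] at h1
  exact h1

end Pool.Agent.U463.MD
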