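import Pool.Agent.U463.MD.Perm

/-!
# Fields over which the defining polynomial becomes reducible
-/

set_option autoImplicit false

namespace Pool.Agent.U463.MD

open Subgroup Module IntermediateField Pool.Agent.Q60.MU Pool.Agent.U152.MU Polynomial
open Pool.Agent.W5h77.MB (abPart mem_abPart)
open scoped Pointwise ComplexConjugate

/-- The absolute Galois group acts commutatively on the roots of unity. -/
theorem cy_comm {p : ℕ} (hp : p.Prime) {n : ℕ} {R : IntermediateField ℚ Qb} (hR : R ≤ CY p n)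
    {x : Qb} (hx : x ∈ R) (σ τ : Gal(Qb/ℚ)) : σ (τ x) = τ (σ x) := by
  have h1 : CY p n ≤ abPart ⊤ := by
    unfold CY
    rw [adjoin_le_iff]
    intro z hz
    refine mem_abPart.2 ⟨mem_top, fun σ τ => ?_⟩
    have hz0 : 0 < orderOf z :=
      orderOf_pos_iff.2 (isOfFinOrder_iff_pow_eq_one.2 ⟨p ^ n, pow_pos hp.pos n, hz⟩)
    have hprim := IsPrimitiveRoot.orderOf z
    have : NeZero (orderOf z) := ⟨hz0.ne'⟩
    have h2 : ∀ σ : Gal(Qb/ℚ), ∃ i, σ z = z ^ i := by
      intro σ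
      obtain ⟨i, -, hi⟩ := hprim.eq_pow_of_pow_eq_one (ξ := σ z) (by
        rw [← map_pow, pow_orderOf_eq_one, map_one])
      exact ⟨i, hi.symm⟩
    obtain ⟨i, hi⟩ := h2 σ
    obtain ⟨j, hj⟩ := h2 τ
    rw [hi, hj, map_pow, map_pow, hi, hj, ← pow_mul, ← pow_mul, mul_comm]
  exact (mem_abPart.1 (h1 (hR hx))).2 σ τ

theorem cy_galois {p : ℕ} (hp : p.Prime) {n : ℕ} {R : IntermediateField ℚ Qb} (hR : R ≤ CY p n) :
    IsGalois ℚ R := by
  apply (InfiniteGalois.normal_iff_isGalois R).1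
  refine ⟨fun f hf g => ?_⟩
  rw [IntermediateField.mem_fixingSubgroup_iff] at hf ⊢
  intro x hx
  show g (f (g⁻¹ x)) = x
  rw [cy_comm hp hR hx f g⁻¹, hf x hx]
  show (g * g⁻¹) x = x
  rw [mul_inv_cancel]
  rfl

/-- The Galois closure. -/
theorem exists_galois (F : IntermediateField ℚ Qb) [FiniteDimensional ℚ F] :
    ∃ K : IntermediateField ℚ Qb, F ≤ K ∧ FiniteDimensional ℚ K ∧ IsGalois ℚ K := by
  have hUf : F.fixingSubgroup.FiniteIndex := ⟨index_ne_zero' F⟩
  set K := F.fixingSubgroup.normalCore with hKdef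
  have hKn : K.Normal := Subgroup.normalCore_normal _
  have hKo : IsOpen (K : Set Gal(Qb/ℚ)) :=
    isOpen_normalCore F.fixingSubgroup_isOpen (index_ne_zero' F)
  have hKf : K.index ≠ 0 := by
    have : K.FiniteIndex := F.fixingSubgroup.finiteIndex_normalCore
    exact Subgroup.FiniteIndex.index_ne_zero
  have hfix := fix_fixed hKo
  exact ⟨fixedField K, (le_iff_le _ _).2 (Subgroup.normalCore_le _), finite_fixed hKo hKf,
    (InfiniteGalois.normal_iff_isGalois (fixedField K)).1 (by rw [hfix]; exact hKn)⟩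

/-- The `p`-ranks of the groups `Cl_P` of the fields `F R`, for all subfields `R` of the fields
generated by roots of unity of `p`-power order, are bounded by a linear function of the maximum of
the `p`-ranks for the fields `E R`, `E ∈ 𝓔`. -/
def RankBound (p : ℕ) (P : Finset ℕ) (𝓔 : Set (IntermediateField ℚ Qb))
    (F : IntermediateField ℚ Qb) : Prop :=
  ∃ B : ℕ, ∀ (R : IntermediateField ℚ Qb) (n : ℕ), R ≤ CY p n → ∀ C : ℕ, 1 ≤ C →
    (∀ E ∈ 𝓔, ClLe p P (E ⊔ R) C) → ClLe p P (F ⊔ R) (B * C ^ B)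

theorem rankBound_of_dominates {p : ℕ} (hp : p.Prime) {P : Finset ℕ} (hP : ∀ ℓ ∈ P, ℓ.Prime)
    (N : IntermediateField ℚ Qb) (hN : FiniteDimensional ℚ N) (hNn : IsGalois ℚ N)
    (F : IntermediateField ℚ Qb) (hF : F ≤ N)
    (𝓔 : Set (IntermediateField ℚ Qb)) (h𝓔 : ∀ E ∈ 𝓔, E ≤ N) (hdom : Dominates p N 𝓔 F) :
    RankBound p P 𝓔 F := by
  have hpf : Fact p.Prime := ⟨hp⟩
  obtain ⟨B, hB⟩ := field_descent hP N hN hNn F hF 𝓔 h𝓔 hdom
  exact ⟨B, fun R n hn C hC h => hB R (cy_galois hp hn) ⟨n, hn⟩ C hC h⟩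

/-- A subfield `R` of the cyclotomic `ℤ_p`-extension of `ℚ` of degree `p ^ m`. -/
def IsLayer (p : ℕ) (R : IntermediateField ℚ Qb) : Prop :=
  (∃ m : ℕ, finrank ℚ R = p ^ m) ∧ (∃ n : ℕ, R ≤ CY p n) ∧
    ∀ (φ : Qb →+* ℂ), ∀ x ∈ R, conj (φ x) = φ x

/-- The groups `Cl_P (F R) / p` are bounded for the layers `F R` of the cyclotomic `ℤ_p`-extension
of `F`. -/
def MuZero (p : ℕ) (P : Finset ℕ) (F : IntermediateField ℚ Qb) : Prop :=
  ∃ C : ℕ, ∀ R, IsLayer p R → ClLe p P (F ⊔ R) C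

theorem ClLe.mono {p : ℕ} {P : Finset ℕ} {E : IntermediateField ℚ Qb} {C D : ℕ} (h : ClLe p P E C)
    (hCD : C ≤ D) : ClLe p P E D := fun M h1 h2 h3 h4 h5 h6 h7 =>
  (h M h1 h2 h3 h4 h5 h6 h7).trans (Nat.mul_le_mul_right _ hCD)

theorem RankBound.mu {p : ℕ} {P : Finset ℕ} {𝓔 : Set (IntermediateField ℚ Qb)} (hfin : 𝓔.Finite)
    {F : IntermediateField ℚ Qb} (h : RankBound p P 𝓔 F) (hE : ∀ E ∈ 𝓔, MuZero p P E) :
    MuZero p P F := by
  obtain ⟨B, hB⟩ := h
  choose! c hc using hE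
  refine ⟨B * (hfin.toFinset.sup c + 1) ^ B, fun R hR => ?_⟩
  obtain ⟨-, ⟨n, hn⟩, -⟩ := id hR
  refine hB R n hn _ (Nat.succ_pos _) fun E hE => (hc E hE R hR).mono ?_
  exact (Finset.le_sup (f := c) (hfin.mem_toFinset.2 hE)).trans (Nat.le_succ _)

/-- The set of subfields is finite. -/
theorem finite_sub {N : IntermediateField ℚ Qb} (hN : FiniteDimensional ℚ N) (hNn : IsGalois ℚ N)
    {𝓔 : Set (IntermediateField ℚ Qb)} (h𝓔 : ∀ E ∈ 𝓔, E ≤ N) : 𝓔.Finite := by
  have hKn : N.fixingSubgroup.Normal := (InfiniteGalois.normal_iff_isGalois N).2 hNn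
  have h1 := finite_ge hKn (index_ne_zero' N)
  refine Set.Finite.of_finite_image (f := fun E : IntermediateField ℚ Qb => E.fixingSubgroup)
    (h1.subset ?_) ?_
  · rintro _ ⟨E, hE, rfl⟩
    exact fixingSubgroup_le (h𝓔 E hE)
  · intro E _ E' _ h
    have h2 : E.fixingSubgroup = E'.fixingSubgroup := h
    rw [← InfiniteGalois.fixedField_fixingSubgroup E, h2, InfiniteGalois.fixedField_fixingSubgroup E']

/-- **Reducible polynomials.** -/
theorem spanning_of_factor {p : ℕ} {f : ℚ[X]} (hf : Irreducible f) (h3 : 3 ≤ f.natDegree)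
    (hfull : ContainsAlternating f) {E : IntermediateField ℚ Qb} {a b : E[X]}
    (hab : f.map (algebraMap ℚ E) = a * b) (ha : a.natDegree ≠ 0) (hb : b.natDegree ≠ 0) :
    Spanning p {E} f := by
  classical
  have hac : IsAlgClosed Qb := AlgebraicClosure.isAlgClosed ℚ
  have hf0 : f ≠ 0 := hf.ne_zero
  have hfm0 : f.map (algebraMap ℚ E) ≠ 0 := (Polynomial.map_ne_zero_iff (algebraMap ℚ E).injective).2 hf0
  have ha0 : a ≠ 0 := by
    rintro rfl
    rw [zero_mul] at hab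
    exact hfm0 hab
  have hb0 : b ≠ 0 := by
    rintro rfl
    rw [mul_zero] at hab
    exact hfm0 hab
  have hsep : f.Separable := hf.separable
  have hasep : a.Separable := by
    have h1 : (f.map (algebraMap ℚ E)).Separable := hsep.map
    rw [hab] at h1
    exact h1.of_mul_left
  have hcard : Fintype.card (f.rootSet Qb) = f.natDegree :=
    card_rootSet_eq_natDegree hsep (IsAlgClosed.splits _)
  have hacard : Fintype.card (a.rootSet Qb) = a.natDegree :=
    card_rootSet_eq_natDegree hasep (IsAlgClosed.splits _)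
  have hdeg : f.natDegree = a.natDegree + b.natDegree := by
    rw [← natDegree_mul ha0 hb0, ← hab, natDegree_map]
  let O : Finset (f.rootSet Qb) := Finset.univ.filter fun x => aeval (x : Qb) a = 0
  have hO : ∀ x : f.rootSet Qb, x ∈ O ↔ aeval (x : Qb) a = 0 := fun x => by
    simp [O]
  have hOcard : O.card = a.natDegree := by
    rw [← hacard, ← Set.toFinset_card]
    refine Finset.card_bij (fun x _ => (x : Qb)) (fun x hx => ?_) (fun x _ y _ h => Subtype.ext h)
      (fun z hz => ?_)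
    · rw [Set.mem_toFinset, mem_rootSet]
      exact ⟨ha0, (hO x).1 hx⟩
    · rw [Set.mem_toFinset, mem_rootSet] at hz
      have h1 : aeval z (f.map (algebraMap ℚ E)) = 0 := by
        rw [hab, map_mul, hz.2, zero_mul]
      rw [aeval_map_algebraMap] at h1
      exact ⟨⟨z, mem_rootSet.2 ⟨hf0, h1⟩⟩, (hO _).2 hz.2, rfl⟩
  refine spanning_of_set hfull (by rw [hcard]; exact h3) O (fun x y hxy => ?_) ?_ ?_
  · rw [hO, hO, ← minpoly.dvd_iff, ← minpoly.dvd_iff, hxy]
  · rw [← Finset.card_pos, hOcard]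
    exact Nat.pos_of_ne_zero ha
  · intro h
    have h1 := hOcard
    rw [h, Finset.card_univ, hcard] at h1
    omega

theorem rankBound_of_factor {p : ℕ} (hp : p.Prime) {P : Finset ℕ} (hP : ∀ ℓ ∈ P, ℓ.Prime)
    {f : ℚ[X]} (hf : Irreducible f) (h3 : 3 ≤ f.natDegree)
    (hfull : ContainsAlternating f) {E : IntermediateField ℚ Qb} (hE : FiniteDimensional ℚ E)
    (hred : ¬ Irreducible (f.map (algebraMap ℚ E)))
    {α : Qb} (hα : aeval α f = 0) : RankBound p P {E} ℚ⟮α⟯ := by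
  have hpf : Fact p.Prime := ⟨hp⟩
  obtain ⟨a, b, hab, ha, hb⟩ : ∃ a b : E[X], f.map (algebraMap ℚ E) = a * b ∧ a.natDegree ≠ 0 ∧
      b.natDegree ≠ 0 := by
    have hm0 : f.map (algebraMap ℚ E) ≠ 0 :=
      (Polynomial.map_ne_zero_iff (algebraMap ℚ E).injective).2 hf.ne_zero
    have hnu : ¬ IsUnit (f.map (algebraMap ℚ E)) := by
      intro h
      have h1 := natDegree_eq_zero_of_isUnit h
      rw [natDegree_map] at h1
      omega
    rw [irreducible_iff] at hred
    push Not at hred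
    obtain ⟨a, b, hab, ha, hb⟩ := hred hnu
    have ha0 : a ≠ 0 := by
      rintro rfl
      rw [zero_mul] at hab
      exact hm0 hab
    have hb0 : b ≠ 0 := by
      rintro rfl
      rw [mul_zero] at hab
      exact hm0 hab
    refine ⟨a, b, hab, fun h => ha ?_, fun h => hb ?_⟩
    · rw [Polynomial.isUnit_iff_degree_eq_zero, degree_eq_natDegree ha0, h]
      rfl
    · rw [Polynomial.isUnit_iff_degree_eq_zero, degree_eq_natDegree hb0, h]
      rfl
  have hint : IsIntegral ℚ α := (AlgebraicClosure.isAlgebraic ℚ).isIntegral.isIntegral α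
  have hαf : FiniteDimensional ℚ (ℚ⟮α⟯ : IntermediateField ℚ Qb) := adjoin.finiteDimensional hint
  have hsup : FiniteDimensional ℚ ↥(E ⊔ ℚ⟮α⟯) := inferInstance
  obtain ⟨N, hNE, hNf, hNg⟩ := exists_galois (E ⊔ ℚ⟮α⟯)
  refine rankBound_of_dominates hp hP N hNf hNg _ (le_sup_right.trans hNE) {E} ?_ ?_
  · rintro E' rfl
    exact le_sup_left.trans hNE
  · exact Spanning.dominates hf (spanning_of_factor hf h3 hfull hab ha hb)
      (mem_rootSet.2 ⟨hf.ne_zero, hα⟩) N

end Pool.Agent.U463.MD
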