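import Pool.Agent.U463.MD.Quant
import Pool.Agent.U152.MU.Det

/-!
# Class groups modulo the classes of given primes
-/

set_option autoImplicit false

namespace Pool.Agent.U463.MD

open Subgroup Module IntermediateField Pool.Agent.Q60.MU Pool.Agent.U152.MU
open scoped Pointwise commutatorElement

/-- `A` lies above a prime in the set `P`. -/
def Above (P : Finset ℕ) (A : ValuationSubring Qb) : Prop := ∃ ℓ ∈ P, (ℓ : Qb) ∈ A.nonunits

/-- The elements of the decomposition group of `A`, which are in the inertia group if `A` does not lie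
above a prime in the set `P`. -/
noncomputable def loc (P : Finset ℕ) (A : ValuationSubring Qb) : Subgroup Gal(Qb/ℚ) :=
  open Classical in if Above P A then MulAction.stabilizer Gal(Qb/ℚ) A else inertia A

theorem mem_loc {P : Finset ℕ} {A : ValuationSubring Qb} {σ : Gal(Qb/ℚ)} :
    σ ∈ loc P A ↔ σ ∈ inertia A ∨ (Above P A ∧ σ • A = A) := by
  by_cases h : Above P A
  · rw [loc, if_pos h]
    constructor
    · intro hs
      exact Or.inr ⟨h, hs⟩
    · rintro (hs | ⟨-, hs⟩)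
      · exact hs.1
      · exact hs
  · rw [loc, if_neg h]
    constructor
    · exact Or.inl
    · rintro (hs | ⟨h1, -⟩)
      · exact hs
      · exact absurd h1 h

theorem above_smul {P : Finset ℕ} {A : ValuationSubring Qb} (g : Gal(Qb/ℚ)) (h : Above P A) :
    Above P (g • A) := by
  obtain ⟨ℓ, hℓ, h1⟩ := h
  refine ⟨ℓ, hℓ, ?_⟩
  rw [ValuationSubring.mem_nonunits_iff_or] at h1 ⊢
  rcases h1 with h1 | h1
  · exact Or.inl h1
  · right
    intro h2
    apply h1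
    have h3 := ValuationSubring.mem_pointwise_smul_iff_inv_smul_mem.1 h2
    have h4 : g⁻¹ • ((ℓ : Qb))⁻¹ = ((ℓ : Qb))⁻¹ := by
      show g⁻¹ ((ℓ : Qb))⁻¹ = _
      rw [map_inv₀, map_natCast]
    rwa [h4] at h3

theorem loc_conj (P : Finset ℕ) (g : Gal(Qb/ℚ)) (A : ValuationSubring Qb) :
    ∀ σ ∈ loc P A, g * σ * g⁻¹ ∈ loc P (g • A) := by
  intro σ hσ
  rw [mem_loc] at hσ ⊢
  rcases hσ with h | ⟨h1, h2⟩
  · exact Or.inl (inertia_conj g A σ h)
  · refine Or.inr ⟨above_smul g h1, ?_⟩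
    rw [mul_smul, mul_smul, inv_smul_smul, h2]

theorem finRam_loc {P : Finset ℕ} (hP : ∀ ℓ ∈ P, ℓ.Prime) : FinRam (loc P) := by
  classical
  intro M hM
  obtain ⟨S, hS, h⟩ := finRam_inertia M hM
  refine ⟨S ∪ P, fun ℓ hℓ => (Finset.mem_union.1 hℓ).elim (hS ℓ) (hP ℓ), fun A => ?_⟩
  by_cases h1 : Above P A
  · obtain ⟨ℓ, hℓ, h2⟩ := h1
    exact Or.inr ⟨ℓ, Finset.mem_union_right _ hℓ, h2⟩
  · rcases h A with h2 | ⟨ℓ, hℓ, h2⟩
    · left
      rw [loc, if_neg h1]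
      exact h2
    · exact Or.inr ⟨ℓ, Finset.mem_union_left _ hℓ, h2⟩

/-- Let `Cl_P (E)` be the (narrow) ideal class group of `E` modulo the classes of the primes above the
prime numbers in `P`. By class field theory `ClLe p P E C` says that `Cl_P (E) / p` has at most `C`
elements: every finite extension `M` of `E` which is Galois over `E` with abelian Galois group of
exponent `p`, unramified at all finite primes, and in which the primes above the `ℓ ∈ P` split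
completely, has degree at most `C` over `E`. -/
def ClLe (p : ℕ) (P : Finset ℕ) (E : IntermediateField ℚ Qb) (C : ℕ) : Prop :=
  ∀ M : IntermediateField ℚ Qb, E ≤ M → FiniteDimensional ℚ M →
    (∀ σ ∈ E.fixingSubgroup, ∀ x ∈ M, σ x ∈ M) →
    (∀ σ ∈ E.fixingSubgroup, ∀ τ ∈ E.fixingSubgroup, ∀ x ∈ M, σ (τ x) = τ (σ x)) →
    (∀ σ ∈ E.fixingSubgroup, ∀ x ∈ M, (σ ^ p) x = x) →
    (∀ A, ∀ σ ∈ inertia A, σ ∈ E.fixingSubgroup → ∀ x ∈ M, σ x = x) →
    (∀ A, Above P A → ∀ σ ∈ E.fixingSubgroup, σ • A = A → ∀ x ∈ M, σ x = x) →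
    finrank ℚ M ≤ C * finrank ℚ E

theorem clLe_iff {p : ℕ} (P : Finset ℕ) (E : IntermediateField ℚ Qb) [FiniteDimensional ℚ E] (C : ℕ) :
    RankLe p (loc P) E.fixingSubgroup C ↔ ClLe p P E C := by
  have hK0 := index_ne_zero' E
  constructor
  · intro h M hEM hM h1 h2 h3 h4 h4'
    have hWK : M.fixingSubgroup ≤ E.fixingSubgroup := fixingSubgroup_le hEM
    have hmul := relIndex_mul_index hWK
    have hW0 := index_ne_zero' M
    have h5 := h M.fixingSubgroup hWK M.fixingSubgroup_isOpen (by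
      intro h0
      rw [h0, zero_mul] at hmul
      exact hW0 hmul.symm) (by
      rintro x ((⟨a, ha, rfl⟩ | ⟨a, ha, b, hb, rfl⟩) | ⟨hx, w, hw⟩)
      · exact (mem_fixingSubgroup_iff _ _).2 fun x hx => h3 a ha x hx
      · refine (mem_fixingSubgroup_iff _ _).2 fun x hx => ?_
        have hb' : b⁻¹ x ∈ M := h1 _ (inv_mem hb) x hx
        have ha' : a⁻¹ (b⁻¹ x) ∈ M := h1 _ (inv_mem ha) _ hb'
        have h6 := h2 a ha b hb _ ha'
        show ⁅a, b⁆ x = x
        have h7 : ⁅a, b⁆ x = a (b (a⁻¹ (b⁻¹ x))) := rfl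
        have h8 : a (a⁻¹ (b⁻¹ x)) = b⁻¹ x := by
          rw [← AlgEquiv.mul_apply, mul_inv_cancel, AlgEquiv.one_apply]
        have h9 : b (b⁻¹ x) = x := by
          rw [← AlgEquiv.mul_apply, mul_inv_cancel, AlgEquiv.one_apply]
        rw [h7, h6, h8, h9]
      · rcases mem_loc.1 hw with hw | ⟨hw1, hw2⟩
        · exact (mem_fixingSubgroup_iff _ _).2 fun y hy => h4 w x hw hx y hy
        · exact (mem_fixingSubgroup_iff _ _).2 fun y hy => h4' w hw1 x hx hw2 y hy)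
    rw [finrank_eq_fixingSubgroup_index, finrank_eq_fixingSubgroup_index, ← hmul]
    exact Nat.mul_le_mul_right _ h5
  · intro h W hWK hWo hWf hg
    have hmul := relIndex_mul_index hWK
    have hW0 : W.index ≠ 0 := by
      rw [← hmul]
      exact mul_ne_zero hWf hK0
    have hfix := fix_fixed hWo
    have hEM : E ≤ fixedField W := (le_iff_le _ _).2 hWK
    have hfd := finite_fixed hWo hW0
    have hmem : ∀ x, x ∈ fixedField W ↔ ∀ w ∈ W, w x = x := fun x => mem_fixedField_iff _ _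
    have h5 := h (fixedField W) hEM hfd (by
      intro σ hσ x hx
      rw [hmem] at hx ⊢
      intro w hw
      have h1 : ⁅σ⁻¹, w⁆ ∈ W := hg (Or.inl (Or.inr ⟨σ⁻¹, inv_mem hσ, w, hWK hw, rfl⟩))
      have h2 : w (σ x) = σ ((⁅σ⁻¹, w⁆ * w) x) := by
        rw [← AlgEquiv.mul_apply, ← AlgEquiv.mul_apply]
        congr 1
        rw [commutatorElement_def]
        group
      rw [h2, hx _ (W.mul_mem h1 hw)]) (by
      intro σ hσ τ hτ x hx
      rw [hmem] at hx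
      have h1 : ⁅σ⁻¹, τ⁻¹⁆ ∈ W := hg (Or.inl (Or.inr ⟨σ⁻¹, inv_mem hσ, τ⁻¹, inv_mem hτ, rfl⟩))
      have h2 : σ (τ x) = τ (σ (⁅σ⁻¹, τ⁻¹⁆ x)) := by
        rw [← AlgEquiv.mul_apply, ← AlgEquiv.mul_apply, ← AlgEquiv.mul_apply]
        congr 1
        rw [commutatorElement_def]
        group
      rw [h2, hx _ h1]) (by
      intro σ hσ x hx
      rw [hmem] at hx
      exact hx _ (hg (Or.inl (Or.inl ⟨σ, hσ, rfl⟩)))) (by
      intro A σ hσA hσ x hx
      rw [hmem] at hx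
      exact hx _ (hg (Or.inr ⟨hσ, A, mem_loc.2 (Or.inl hσA)⟩))) (by
      intro A hA σ hσ hσA x hx
      rw [hmem] at hx
      exact hx _ (hg (Or.inr ⟨hσ, A, mem_loc.2 (Or.inr ⟨hA, hσA⟩)⟩)))
    rw [finrank_eq_fixingSubgroup_index, finrank_eq_fixingSubgroup_index, hfix, ← hmul] at h5
    exact Nat.le_of_mul_le_mul_right h5 (Nat.pos_of_ne_zero hK0)

/-- Every finite representation of `Gal(N/ℚ)` over `𝔽_p` which has a nonzero vector fixed by
`Gal(N/F)` has a nonzero vector fixed by `Gal(N/E)` for some field `E` in the set `𝓔`. -/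
def Dominates (p : ℕ) (N : IntermediateField ℚ Qb) (𝓔 : Set (IntermediateField ℚ Qb))
    (F : IntermediateField ℚ Qb) : Prop :=
  ∀ (V : Type) [AddCommGroup V] [Module (ZMod p) V] [Module.Finite (ZMod p) V]
    (τ : Representation (ZMod p) Gal(Qb/ℚ) V), (∀ g ∈ N.fixingSubgroup, ∀ x, τ g x = x) →
    (∃ v : V, v ≠ 0 ∧ ∀ g ∈ F.fixingSubgroup, τ g v = v) →
    ∃ E ∈ 𝓔, ∃ v : V, v ≠ 0 ∧ ∀ g ∈ E.fixingSubgroup, τ g v = v

theorem fd_of_le {N E : IntermediateField ℚ Qb} (hN : FiniteDimensional ℚ N) (hE : E ≤ N) :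
    FiniteDimensional ℚ E :=
  Submodule.finiteDimensional_of_le (S₁ := Subalgebra.toSubmodule E.toSubalgebra)
    (S₂ := Subalgebra.toSubmodule N.toSubalgebra) hE

theorem cy_fd {p : ℕ} (hp : p.Prime) (n : ℕ) : FiniteDimensional ℚ (CY p n) := by
  have hnz : NeZero (p ^ n) := ⟨(pow_pos hp.pos _).ne'⟩
  have hcyc : IsCyclotomicExtension {p ^ n} ℚ ↥(CY p n) := isCyc (p ^ n)
  exact IsCyclotomicExtension.finiteDimensional {p ^ n} ℚ ↥(CY p n)

/-- **The descent inequality for number fields.** -/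
theorem field_descent {p : ℕ} [hp : Fact p.Prime] {P : Finset ℕ} (hP : ∀ ℓ ∈ P, ℓ.Prime)
    (N : IntermediateField ℚ Qb) (hN : FiniteDimensional ℚ N) (hNn : IsGalois ℚ N)
    (F : IntermediateField ℚ Qb) (hF : F ≤ N)
    (𝓔 : Set (IntermediateField ℚ Qb)) (h𝓔 : ∀ E ∈ 𝓔, E ≤ N) (hdom : Dominates p N 𝓔 F) :
    ∃ B, ∀ R : IntermediateField ℚ Qb, IsGalois ℚ R → (∃ n, R ≤ CY p n) → ∀ C, 1 ≤ C →
      (∀ E ∈ 𝓔, ClLe p P (E ⊔ R) C) → ClLe p P (F ⊔ R) (B * C ^ B) := by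
  classical
  have hKn : N.fixingSubgroup.Normal := (InfiniteGalois.normal_iff_isGalois N).2 hNn
  have hKo := N.fixingSubgroup_isOpen
  have hKf := index_ne_zero' N
  obtain ⟨S, hS, hSA⟩ := finRam_loc hP N hN
  choose! t T hTt hT using fun ℓ (hℓ : ℓ.Prime) => fin_cyc hp.out ℓ hℓ
  refine ⟨dcst N.fixingSubgroup.index (∑ ℓ ∈ S, t ℓ) (finite_ge hKn hKf).toFinset.card, ?_⟩
  rintro R hRg ⟨n, hn⟩ C hC1 hC
  have hRf : FiniteDimensional ℚ R := fd_of_le (cy_fd hp.out n) hn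
  have hFf := fd_of_le hN hF
  rw [← clLe_iff, fixingSubgroup_sup]
  refine descentQ (p := p) (I := loc P) (loc_conj P) (D := R.fixingSubgroup)
    ((InfiniteGalois.normal_iff_isGalois R).2 hRg) R.fixingSubgroup_isOpen (index_ne_zero' R)
    hKn hKo hKf (fixingSubgroup_le hF) (T := S.biUnion fun ℓ => T ℓ n)
    (Finset.card_biUnion_le.trans (Finset.sum_le_sum fun ℓ hℓ => hTt ℓ (hS ℓ hℓ) n))
    (fun A => ?_) (𝓓 := {L | ∃ E ∈ 𝓔, L = E.fixingSubgroup}) ?_ ?_ hC1 ?_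
  · rcases hSA A with h | ⟨ℓ, hℓ, hℓA⟩
    · exact Or.inl (inf_le_left.trans h)
    · right
      obtain ⟨B, hB, σ, hσ, h1⟩ := hT ℓ (hS ℓ hℓ) n A hℓA
      exact ⟨B, Finset.mem_biUnion.2 ⟨ℓ, hℓ, hB⟩, σ, fixingSubgroup_le hn hσ, h1⟩
  · rintro L ⟨E, hE, rfl⟩
    exact fixingSubgroup_le (h𝓔 E hE)
  · rintro Q _ _ _ τ hτ ⟨v, hv, h⟩
    obtain ⟨E, hE, w, hw, h1⟩ := hdom Q τ hτ ⟨v, hv, fun g hg => h hg⟩
    exact ⟨E.fixingSubgroup, ⟨E, hE, rfl⟩, w, hw, fun g hg => h1 g hg⟩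
  · rintro L ⟨E, hE, rfl⟩
    have hEf := fd_of_le hN (h𝓔 E hE)
    rw [← fixingSubgroup_sup, clLe_iff]
    exact hC E hE

end Pool.Agent.U463.MD
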