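import Pool.Agent.Q60.MU.Main
import Pool.Agent.U463.MD.Coind

/-!
# The inequality for a subgroup which need not be normal
-/

set_option autoImplicit false

namespace Pool.Agent.U463.MD

open Subgroup Module Pool.Agent.Q60.MU
open scoped commutatorElement

variable {𝔾 : Type} [Group 𝔾]

/-- **The main inequality.** -/
theorem main_ineqH [TopologicalSpace 𝔾] [ContinuousMul 𝔾] {p : ℕ} [Fact p.Prime] {Ω : Type}
    [MulAction 𝔾 Ω] {I : Ω → Subgroup 𝔾}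
    (hI : ∀ (g : 𝔾) (w : Ω), ∀ x ∈ I w, g * x * g⁻¹ ∈ I (g • w))
    {K H D : Subgroup 𝔾} (hKD : K ≤ D) (hKn : ∀ d ∈ D, ∀ x ∈ K, d * x * d⁻¹ ∈ K)
    (hKo : IsOpen (K : Set 𝔾)) (hKH : K ≤ H) (hHD : H ≤ D) {n t : ℕ}
    (hn0 : K.relIndex D ≠ 0) (hn : K.relIndex D ≤ n)
    (𝓗 : Finset (Subgroup 𝔾)) (hH : ∀ L ∈ 𝓗, K ≤ L ∧ L ≤ D)
    (hdet : DetectsH (ZMod p) (K.subgroupOf D) (H.subgroupOf D) 𝓗 (fun L => L.subgroupOf D))
    (T : Finset Ω) (hTt : T.card ≤ t) (hT : ∀ w, I w ⊓ D ≤ K ∨ ∃ u ∈ T, ∃ d ∈ D, w = d • u)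
    {C : ℕ} (hC : ∀ L ∈ 𝓗, RankLe p I L C) :
    RankLe p I H (n * (cst n (n * t) * C) ^ (n * 𝓗.card)) := by
  classical
  intro W₀ hW₀H hW₀o hW₀f hg₀
  have hW₁o : IsOpen ((W₀ ⊓ K : Subgroup 𝔾) : Set 𝔾) := by
    rw [coe_inf]
    exact hW₀o.inter hKo
  have hW₁f : (W₀ ⊓ K).relIndex K ≠ 0 := by
    rw [inf_relIndex_right]
    exact fun h => hW₀f (relIndex_eq_zero_of_le_right hKH h)
  obtain ⟨W, hWW₁, hWo, hWf, hg, hWn⟩ := exists_core hI hKn hn0 inf_le_right hW₁o hW₁f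
    (fun x hx => ⟨hg₀ (gens_mono hKH hx), gens_subset hx⟩)
  have hWK : W ≤ K := hWW₁.trans inf_le_right
  obtain ⟨V, i1, i2, i3, ρ, π, hs, ha, h0, hρ⟩ := exists_rep hKD hKn hWf hg hWn
  have hπ1 : π 1 = 0 := (h0 1).2 W.one_mem
  have hneg : ∀ x : K, π x⁻¹ = - π x := by
    intro x
    have h5 : π x⁻¹ + π x = 0 := by rw [← ha, inv_mul_cancel, hπ1]
    exact (neg_eq_of_add_eq_zero_left h5).symm
  have htriv : ∀ g ∈ K.subgroupOf D, ∀ x, ρ g x = x := by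
    intro g hgK x
    obtain ⟨y, rfl⟩ := hs x
    rw [hρ]
    have h1 : (⟨g * y * (g : 𝔾)⁻¹, hKn g g.2 y y.2⟩ : K) =
        ⟨⁅(g : 𝔾), (y : 𝔾)⁆, hWK (hg (Or.inl (Or.inr ⟨g, hgK, y, y.2, rfl⟩)))⟩ * y := by
      apply Subtype.ext
      show (g : 𝔾) * y * (g : 𝔾)⁻¹ = ⁅(g : 𝔾), (y : 𝔾)⁆ * y
      rw [commutatorElement_def]
      group
    rw [h1, ha, (h0 _).2 (hg (Or.inl (Or.inr ⟨g, hgK, y, y.2, rfl⟩))), zero_add]
  -- the coinvariants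
  have hcard : ∀ c : Submodule (ZMod p) V, ∀ Q : Subgroup 𝔾,
      (∀ x, x ∈ Q ↔ ∃ h : x ∈ K, π ⟨x, h⟩ ∈ c) →
      Q.relIndex K = p ^ finrank (ZMod p) (V ⧸ c) := by
    intro c Q hQ
    let φ : K →* Multiplicative (V ⧸ c) :=
      { toFun := fun x => Multiplicative.ofAdd (c.mkQ (π x))
        map_one' := by
          rw [hπ1, map_zero]
          rfl
        map_mul' := fun x y => by
          rw [ha, map_add]
          rfl }
    have h1 : Q.subgroupOf K = φ.ker := by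
      ext x
      rw [mem_subgroupOf, hQ, MonoidHom.mem_ker]
      constructor
      · rintro ⟨_, h⟩
        exact (Submodule.Quotient.mk_eq_zero c).2 h
      · intro h
        exact ⟨x.2, (Submodule.Quotient.mk_eq_zero c).1 h⟩
    have h2 : Function.Surjective φ := by
      intro y
      obtain ⟨v, hv⟩ := c.mkQ_surjective (Multiplicative.toAdd y)
      obtain ⟨x, rfl⟩ := hs v
      exact ⟨x, congrArg Multiplicative.ofAdd hv⟩
    have h3 : Nat.card (V ⧸ c) = p ^ finrank (ZMod p) (V ⧸ c) := by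
      have h4 := Module.natCard_eq_pow_finrank (K := ZMod p) (V := V ⧸ c)
      rwa [Nat.card_zmod] at h4
    rw [relIndex, h1, index_ker, MonoidHom.range_eq_top.2 h2, card_top, ← h3]
    rfl
  have hmkQ : ∀ c : Submodule (ZMod p) V, ∃ Q : Subgroup 𝔾,
      ∀ x, x ∈ Q ↔ ∃ h : x ∈ K, π ⟨x, h⟩ ∈ c := by
    intro c
    refine ⟨⟨⟨⟨{x | ∃ h : x ∈ K, π ⟨x, h⟩ ∈ c}, ?_⟩, ?_⟩, ?_⟩, fun x => Iff.rfl⟩
    · rintro a b ⟨h1, h2⟩ ⟨h3, h4⟩
      refine ⟨K.mul_mem h1 h3, ?_⟩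
      have h5 : π ⟨a * b, K.mul_mem h1 h3⟩ = π ⟨a, h1⟩ + π ⟨b, h3⟩ := ha ⟨a, h1⟩ ⟨b, h3⟩
      rw [h5]
      exact c.add_mem h2 h4
    · refine ⟨K.one_mem, ?_⟩
      have h5 : π ⟨1, K.one_mem⟩ = 0 := hπ1
      rw [h5]
      exact c.zero_mem
    · rintro a ⟨h1, h2⟩
      refine ⟨K.inv_mem h1, ?_⟩
      have h5 : π ⟨a⁻¹, K.inv_mem h1⟩ = - π ⟨a, h1⟩ := hneg ⟨a, h1⟩
      rw [h5]
      exact c.neg_mem h2
  have hcomm : ∀ l (_ : l ∈ D) k (hk : k ∈ K), ∃ hm : ⁅l, k⁆ ∈ K,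
      ∃ d : D, (d : 𝔾) = l ∧ π ⟨⁅l, k⁆, hm⟩ = ρ d (π ⟨k, hk⟩) - π ⟨k, hk⟩ := by
    intro l hl k hk
    have hlk : l * k * l⁻¹ ∈ K := hKn l hl k hk
    have hm : ⁅l, k⁆ ∈ K := by
      rw [commutatorElement_def]
      exact K.mul_mem hlk (K.inv_mem hk)
    refine ⟨hm, ⟨l, hl⟩, rfl, ?_⟩
    have h1 : π ⟨⁅l, k⁆, hm⟩ + π ⟨k, hk⟩ = ρ ⟨l, hl⟩ (π ⟨k, hk⟩) := by
      rw [hρ, ← ha]
      congr 1
      apply Subtype.ext
      show ⁅l, k⁆ * k = l * k * l⁻¹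
      rw [commutatorElement_def]
      group
    rw [← h1, add_sub_cancel_right]
  have hL : ∀ L ∈ 𝓗, p ^ finrank (ZMod p) (V ⧸ coinv ρ (L.subgroupOf D)) ≤
      cst n (n * t) * C := by
    intro L hLH
    obtain ⟨hKL, hLD⟩ := hH L hLH
    obtain ⟨Q, hQ⟩ := hmkQ (coinv ρ (L.subgroupOf D))
    have hidx := hcard _ Q hQ
    have hmul : K.relIndex L * L.relIndex D = K.relIndex D := relIndex_mul_relIndex K L D hKL hLD
    have hKL0 : K.relIndex L ≠ 0 := fun h => hn0 (by rw [← hmul, h, zero_mul])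
    have hLD0 : L.relIndex D ≠ 0 := fun h => hn0 (by rw [← hmul, h, mul_zero])
    have hKLn : K.relIndex L ≤ n := by
      refine le_trans ?_ hn
      rw [← hmul]
      exact Nat.le_mul_of_pos_right _ (Nat.pos_of_ne_zero hLD0)
    have hLDn : L.relIndex D ≤ n := by
      refine le_trans ?_ hn
      rw [← hmul]
      exact Nat.le_mul_of_pos_left _ (Nat.pos_of_ne_zero hKL0)
    obtain ⟨T', hT'c, hT'⟩ := exists_TL hLD0 T
    have hWQ : W ≤ Q := by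
      intro x hx
      refine (hQ x).2 ⟨hWK hx, ?_⟩
      rw [(h0 ⟨x, hWK hx⟩).2 hx]
      exact (coinv ρ (L.subgroupOf D)).zero_mem
    have hc : ∀ l ∈ L, ∀ k ∈ K, ⁅l, k⁆ ∈ Q := by
      intro l hl k hk
      obtain ⟨hm, d, hd, h2⟩ := hcomm l (hLD hl) k hk
      refine (hQ _).2 ⟨hm, ?_⟩
      rw [h2]
      exact Submodule.subset_span ⟨d, show (d : 𝔾) ∈ L from hd ▸ hl, _, rfl⟩
    have h1 := genus hI hKL hKL0 (fun x hx => ((hQ x).1 hx).1) (isOpen_mono hWQ hWo)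
      (by
        rw [hidx]
        exact pow_ne_zero _ (Fact.out : p.Prime).ne_zero)
      (fun x hx => hWQ (hg hx)) hc T' (by
        intro w
        rcases hT w with h | ⟨u, hu, d, hd, rfl⟩
        · exact Or.inl ((inf_le_inf_left _ hLD).trans h)
        · exact Or.inr (hT' u hu d hd)) (hC L hLH)
    rw [hidx] at h1
    refine h1.trans (Nat.mul_le_mul_right _ ?_)
    refine cst_mono (Nat.pos_of_ne_zero hKL0) hKLn (hT'c.trans (Nat.mul_le_mul hLDn hTt))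
  -- the subgroup `H`
  have hw : ∀ v ∈ coinv ρ (H.subgroupOf D), ∃ w : K, (w : 𝔾) ∈ W₀ ∧ π w = v := by
    intro v hv
    refine Submodule.span_induction ?_ ⟨1, W₀.one_mem, hπ1⟩ ?_ ?_ hv
    · rintro _ ⟨h, hh, v, rfl⟩
      obtain ⟨y, rfl⟩ := hs v
      obtain ⟨hm, d, hd, h2⟩ := hcomm h h.2 y y.2
      have hdh : d = h := Subtype.ext hd
      rw [hdh] at h2
      exact ⟨⟨⁅(h : 𝔾), (y : 𝔾)⁆, hm⟩, hg₀ (Or.inl (Or.inr ⟨h, hh, y, hKH y.2, rfl⟩)), h2⟩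
    · rintro a b _ _ ⟨x, hx, rfl⟩ ⟨y, hy, rfl⟩
      exact ⟨x * y, W₀.mul_mem hx hy, ha x y⟩
    · rintro c a _ ⟨x, hx, rfl⟩
      have hpow : ∀ n : ℕ, π (x ^ n) = n • π x := by
        intro n
        induction n with
        | zero => rw [pow_zero, hπ1, zero_nsmul]
        | succ n ih => rw [pow_succ, ha, ih, succ_nsmul]
      refine ⟨x ^ c.val, ?_, ?_⟩
      · push_cast
        exact W₀.pow_mem hx _
      · rw [hpow, ← Nat.cast_smul_eq_nsmul (ZMod p), ZMod.natCast_zmod_val]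
  obtain ⟨Q, hQ⟩ := hmkQ (coinv ρ (H.subgroupOf D))
  have hidx := hcard _ Q hQ
  have hQW : Q ≤ W₀ ⊓ K := by
    intro x hx
    obtain ⟨hxK, hxc⟩ := (hQ x).1 hx
    obtain ⟨w, hwW, hwx⟩ := hw _ hxc
    refine ⟨?_, hxK⟩
    have h1 : π (w⁻¹ * ⟨x, hxK⟩) = 0 := by rw [ha, hneg, hwx, neg_add_cancel]
    have h2 : ((w⁻¹ * ⟨x, hxK⟩ : K) : 𝔾) ∈ W := (h0 _).1 h1
    have h3 : x = (w : 𝔾) * ((w⁻¹ * ⟨x, hxK⟩ : K) : 𝔾) := by
      push_cast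
      group
    rw [h3]
    exact W₀.mul_mem hwW (hWW₁ h2).1
  have hQf : Q.relIndex K ≠ 0 := by
    rw [hidx]
    exact pow_ne_zero _ (Fact.out : p.Prime).ne_zero
  have hmul : K.relIndex H * H.relIndex D = K.relIndex D := relIndex_mul_relIndex K H D hKH hHD
  have hKH0 : K.relIndex H ≠ 0 := fun h => hn0 (by rw [← hmul, h, zero_mul])
  have hHD0 : H.relIndex D ≠ 0 := fun h => hn0 (by rw [← hmul, h, mul_zero])
  have hKHn : K.relIndex H ≤ n := by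
    refine le_trans ?_ hn
    rw [← hmul]
    exact Nat.le_mul_of_pos_right _ (Nat.pos_of_ne_zero hHD0)
  have h3 : (W₀ ⊓ K).relIndex K * K.relIndex H = (W₀ ⊓ K).relIndex H :=
    relIndex_mul_relIndex (W₀ ⊓ K) K H inf_le_right hKH
  have h4 : (W₀ ⊓ K).relIndex H ≠ 0 := by
    rw [← h3]
    exact mul_ne_zero hW₁f hKH0
  have hdim := finrank_leH ρ (K₀ := K.subgroupOf D) (H₀ := H.subgroupOf D) hn0 htriv hdet
  have hp1 : 1 ≤ p := (Fact.out : p.Prime).one_le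
  calc W₀.relIndex H ≤ (W₀ ⊓ K).relIndex H := relIndex_le_of_le_left inf_le_left h4
    _ = (W₀ ⊓ K).relIndex K * K.relIndex H := h3.symm
    _ ≤ Q.relIndex K * n := Nat.mul_le_mul (relIndex_le_of_le_left hQW hQf) hKHn
    _ = n * p ^ finrank (ZMod p) (V ⧸ coinv ρ (H.subgroupOf D)) := by rw [hidx, mul_comm]
    _ ≤ n * p ^ (n * ∑ L ∈ 𝓗, finrank (ZMod p) (V ⧸ coinv ρ (L.subgroupOf D))) :=
        Nat.mul_le_mul_left _ (Nat.pow_le_pow_right hp1 (hdim.trans (Nat.mul_le_mul_right _ hn)))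
    _ = n * (∏ L ∈ 𝓗, p ^ finrank (ZMod p) (V ⧸ coinv ρ (L.subgroupOf D))) ^ n := by
        rw [Finset.prod_pow_eq_pow_sum, ← pow_mul, mul_comm (∑ L ∈ 𝓗, _) n]
    _ ≤ n * ((cst n (n * t) * C) ^ 𝓗.card) ^ n :=
        Nat.mul_le_mul_left _ (Nat.pow_le_pow_left (Finset.prod_le_pow_card _ _ _ hL) _)
    _ = n * (cst n (n * t) * C) ^ (n * 𝓗.card) := by rw [← pow_mul, mul_comm 𝓗.card n]

end Pool.Agent.U463.MD
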