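import Pool.Agent.U463.MD.Loc

/-!
# Domination by factorizations of the defining polynomial
-/

set_option autoImplicit false

namespace Pool.Agent.U463.MD

open Subgroup Module IntermediateField Pool.Agent.Q60.MU Pool.Agent.U152.MU Polynomial
open scoped Pointwise

/-- The field conjugate to `E` by `g`. -/
noncomputable abbrev cj (g : Gal(Qb/ℚ)) (E : IntermediateField ℚ Qb) : IntermediateField ℚ Qb :=
  E.map (g : Qb →ₐ[ℚ] Qb)

theorem mem_cj_fix {g h : Gal(Qb/ℚ)} {E : IntermediateField ℚ Qb} (hh : h ∈ E.fixingSubgroup) :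
    g * h * g⁻¹ ∈ (cj g E).fixingSubgroup := by
  rw [IntermediateField.mem_fixingSubgroup_iff]
  rintro _ ⟨y, hy, rfl⟩
  have h1 : g⁻¹ ((g : Qb →ₐ[ℚ] Qb) y) = y := by
    show g⁻¹ (g y) = y
    rw [← AlgEquiv.mul_apply, inv_mul_cancel, AlgEquiv.one_apply]
  rw [AlgEquiv.mul_apply, AlgEquiv.mul_apply]
  show g (h (g⁻¹ ((g : Qb →ₐ[ℚ] Qb) y))) = g y
  rw [h1, (IntermediateField.mem_fixingSubgroup_iff _ _).1 hh y hy]

theorem of_mem_cj_fix {g h : Gal(Qb/ℚ)} {E : IntermediateField ℚ Qb}
    (hh : h ∈ (cj g E).fixingSubgroup) : g⁻¹ * h * g ∈ E.fixingSubgroup := by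
  rw [IntermediateField.mem_fixingSubgroup_iff]
  intro y hy
  have h1 := (IntermediateField.mem_fixingSubgroup_iff _ _).1 hh (g y) ⟨y, hy, rfl⟩
  rw [AlgEquiv.mul_apply, AlgEquiv.mul_apply, h1, ← AlgEquiv.mul_apply, inv_mul_cancel,
    AlgEquiv.one_apply]

/-- Two numbers have the same minimal polynomial over a field if and only if they are conjugate. -/
theorem minpoly_iff (E : IntermediateField ℚ Qb) (x y : Qb) :
    minpoly E x = minpoly E y ↔ ∃ h ∈ E.fixingSubgroup, h y = x := by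
  have hn : Normal E Qb := inferInstance
  have h1 : minpoly E x = minpoly E y ↔ ∃ σ : Qb ≃ₐ[E] Qb, σ y = x :=
    isConjRoot_iff_exists_algEquiv (K := E) (x := x) (y := y)
  rw [h1]
  constructor
  · rintro ⟨σ, hσ⟩
    refine ⟨σ.restrictScalars ℚ, ?_, hσ⟩
    rw [IntermediateField.mem_fixingSubgroup_iff]
    intro z hz
    exact σ.commutes (⟨z, hz⟩ : E)
  · rintro ⟨h, hh, h2⟩
    exact ⟨fixingSubgroupEquiv E ⟨h, hh⟩, h2⟩

/-- The functions on the set of the roots of `f` with values in `𝔽_p` that are constant on the set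
of the roots of each irreducible factor of `f` over the field `E'`. -/
def factorFun (p : ℕ) (f : ℚ[X]) (E' : IntermediateField ℚ Qb) : Set (f.rootSet Qb → ZMod p) :=
  {c | ∀ x y : f.rootSet Qb, minpoly E' (x : Qb) = minpoly E' (y : Qb) → c x = c y}

/-- The functions in `factorFun p f E'`, for the fields `E'` which are conjugate to fields in the
nonempty set `𝓔`, span a space that contains all the functions on the set of roots of `f` with
sum `0`. -/
def Spanning (p : ℕ) (𝓔 : Set (IntermediateField ℚ Qb)) (f : ℚ[X]) : Prop :=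
  𝓔.Nonempty ∧ ∀ c : f.rootSet Qb → ZMod p, ∑ x, c x = 0 →
    c ∈ Submodule.span (ZMod p) {c | ∃ E ∈ 𝓔, ∃ g : Gal(Qb/ℚ), c ∈ factorFun p f (cj g E)}

theorem map_root {f : ℚ[X]} (h : Gal(Qb/ℚ)) {x : Qb} (hx : x ∈ f.rootSet Qb) :
    h x ∈ f.rootSet Qb := by
  rw [mem_rootSet] at hx ⊢
  refine ⟨hx.1, ?_⟩
  have h1 := aeval_algHom_apply (h : Qb →ₐ[ℚ] Qb) x f
  rw [hx.2, map_zero] at h1
  exact h1

/-- The action on the roots. -/
noncomputable def rt (f : ℚ[X]) (h : Gal(Qb/ℚ)) : f.rootSet Qb ≃ f.rootSet Qb where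
  toFun x := ⟨h x, map_root h x.2⟩
  invFun x := ⟨h⁻¹ x, map_root h⁻¹ x.2⟩
  left_inv x := by
    apply Subtype.ext
    show h⁻¹ (h x) = x
    rw [← AlgEquiv.mul_apply, inv_mul_cancel, AlgEquiv.one_apply]
  right_inv x := by
    apply Subtype.ext
    show h (h⁻¹ x) = x
    rw [← AlgEquiv.mul_apply, mul_inv_cancel, AlgEquiv.one_apply]

theorem rt_apply (f : ℚ[X]) (h : Gal(Qb/ℚ)) (x : f.rootSet Qb) : (rt f h x : Qb) = h x := rfl

theorem mem_fix_simple {α : Qb} {h : Gal(Qb/ℚ)} (hα : h α = α) :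
    h ∈ (ℚ⟮α⟯ : IntermediateField ℚ Qb).fixingSubgroup := by
  have h2 : (ℚ⟮α⟯ : IntermediateField ℚ Qb) ≤ fixedField (Subgroup.zpowers h) := by
    rw [adjoin_simple_le_iff]
    have h3 : Subgroup.zpowers h ≤ MulAction.stabilizer Gal(Qb/ℚ) α := by
      rw [Subgroup.zpowers_le]
      exact hα
    exact (mem_fixedField_iff _ _).2 fun f hf => h3 hf
  rw [IntermediateField.mem_fixingSubgroup_iff]
  intro x hx
  exact (mem_fixedField_iff _ _).1 (h2 hx) h (Subgroup.mem_zpowers h)

theorem minpoly_eq_of_root {f : ℚ[X]} (hf : Irreducible f) {x y : Qb} (hx : x ∈ f.rootSet Qb)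
    (hy : y ∈ f.rootSet Qb) : minpoly ℚ x = minpoly ℚ y := by
  rw [mem_rootSet] at hx hy
  have h1 := minpoly.eq_of_irreducible hf hx.2
  have h2 := minpoly.eq_of_irreducible hf hy.2
  rw [← h1, ← h2]

theorem exists_lift {f : ℚ[X]} (hf : Irreducible f) {x y : Qb} (hx : x ∈ f.rootSet Qb)
    (hy : y ∈ f.rootSet Qb) : ∃ g : Gal(Qb/ℚ), g y = x := by
  have hn : Normal ℚ Qb := inferInstance
  exact (isConjRoot_iff_exists_algEquiv (K := ℚ) (x := x) (y := y)).1 (minpoly_eq_of_root hf hx hy)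

/-- **The criterion by factorizations.** -/
theorem Spanning.dominates {p : ℕ} [hp : Fact p.Prime] {𝓔 : Set (IntermediateField ℚ Qb)} {f : ℚ[X]}
    (hf : Irreducible f) (h : Spanning p 𝓔 f) {α : Qb} (hα : α ∈ f.rootSet Qb)
    (N : IntermediateField ℚ Qb) : Dominates p N 𝓔 ℚ⟮α⟯ := by
  classical
  rintro V _ _ _ τ - ⟨v, hv, hfix⟩
  choose g hg using fun x : f.rootSet Qb => exists_lift hf x.2 hα
  -- the vectors of the roots
  let w : f.rootSet Qb → V := fun x => τ (g x) v
  have hw : ∀ (s : Gal(Qb/ℚ)) (x : f.rootSet Qb), s α = x → τ s v = w x := by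
    intro s x hs
    have h1 : (g x)⁻¹ * s ∈ (ℚ⟮α⟯ : IntermediateField ℚ Qb).fixingSubgroup := by
      apply mem_fix_simple
      rw [AlgEquiv.mul_apply, hs, ← hg x, ← AlgEquiv.mul_apply, inv_mul_cancel, AlgEquiv.one_apply]
    have h2 := hfix _ h1
    have h3 : τ (g x) (τ ((g x)⁻¹ * s) v) = τ s v := by
      rw [← Module.End.mul_apply, ← map_mul, mul_inv_cancel_left]
    rw [← h3, h2]
  have hact : ∀ (s : Gal(Qb/ℚ)) (x : f.rootSet Qb), τ s (w x) = w (rt f s x) := by
    intro s x
    rw [← hw (s * g x) (rt f s x) (by rw [AlgEquiv.mul_apply, hg x, rt_apply]), map_mul]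
    rfl
  let L : (f.rootSet Qb → ZMod p) →ₗ[ZMod p] V :=
    { toFun := fun c => ∑ x, c x • w x
      map_add' := fun c d => by
        simp only [Pi.add_apply, add_smul, Finset.sum_add_distrib]
      map_smul' := fun r c => by
        simp only [Pi.smul_apply, smul_eq_mul, mul_smul, Finset.smul_sum, RingHom.id_apply] }
  have hL : ∀ c, L c = ∑ x, c x • w x := fun _ => rfl
  by_contra hcon
  push Not at hcon
  have h0 : ∀ c ∈ {c : f.rootSet Qb → ZMod p | ∃ E ∈ 𝓔, ∃ g : Gal(Qb/ℚ),
      c ∈ factorFun p f (cj g E)}, c ∈ LinearMap.ker L := by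
    rintro c ⟨E, hE, s, hc⟩
    rw [LinearMap.mem_ker]
    by_contra hne
    obtain ⟨d, hd, h1⟩ := hcon E hE (τ s⁻¹ (L c)) (by
      intro h1
      apply hne
      have h2 : τ s (τ s⁻¹ (L c)) = L c := by
        rw [← Module.End.mul_apply, ← map_mul, mul_inv_cancel, map_one]
        rfl
      rw [← h2, h1, map_zero])
    apply h1
    have h2 : τ (s * d * s⁻¹) (L c) = L c := by
      rw [hL, map_sum]
      have h3 : ∀ x, τ (s * d * s⁻¹) (c x • w x) = c (rt f (s * d * s⁻¹) x) • w (rt f (s * d * s⁻¹) x) := by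
        intro x
        rw [map_smul, hact, hc (rt f (s * d * s⁻¹) x) x]
        rw [minpoly_iff]
        exact ⟨s * d * s⁻¹, mem_cj_fix hd, rfl⟩
      rw [Finset.sum_congr rfl fun x _ => h3 x]
      exact Equiv.sum_comp (rt f (s * d * s⁻¹)) fun x => c x • w x
    have h3 : τ d (τ s⁻¹ (L c)) = τ s⁻¹ (τ (s * d * s⁻¹) (L c)) := by
      rw [← Module.End.mul_apply, ← Module.End.mul_apply, ← map_mul, ← map_mul]
      congr 2
      group
    rw [h3, h2]
  have hsingle : ∀ y, L (Pi.single y 1) = w y := by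
    intro y
    rw [hL, Finset.sum_eq_single y, Pi.single_eq_same, one_smul]
    · intro x _ hx
      rw [Pi.single_eq_of_ne hx, zero_smul]
    · intro h3
      exact absurd (Finset.mem_univ _) h3
  have hvα : w ⟨α, hα⟩ = v := by
    rw [← hw 1 ⟨α, hα⟩ (AlgEquiv.one_apply _), map_one]
    rfl
  obtain ⟨⟨E, hE⟩, hspan⟩ := h
  -- all the vectors of the roots are equal
  have hall : ∀ y, w y = v := by
    intro y
    have h1 : (Pi.single y 1 - Pi.single ⟨α, hα⟩ 1 : f.rootSet Qb → ZMod p) ∈ LinearMap.ker L := by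
      refine Submodule.span_le.2 h0 (hspan _ ?_)
      simp only [Pi.sub_apply, Finset.sum_sub_distrib]
      rw [Finset.sum_pi_single', Finset.sum_pi_single', if_pos (Finset.mem_univ _),
        if_pos (Finset.mem_univ _), sub_self]
    rw [LinearMap.mem_ker, map_sub, hsingle, hsingle, hvα, sub_eq_zero] at h1
    exact h1
  obtain ⟨d, -, hd⟩ := hcon E hE v hv
  apply hd
  rw [← hvα, hact, hall, hvα]

open Classical in
/-- The Galois group of `f` contains the alternating group: any even permutation of the roots of `f`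
is induced by an automorphism. -/
def ContainsAlternating (f : ℚ[X]) : Prop :=
  ∀ π : Equiv.Perm (f.rootSet Qb), Equiv.Perm.sign π = 1 →
    ∃ g : Gal(Qb/ℚ), ∀ x : f.rootSet Qb, g x = (π x : Qb)

theorem exists_even {X : Type} [Fintype X] [DecidableEq X] (h3 : 3 ≤ Fintype.card X) (O : Finset X)
    (π : Equiv.Perm X) : ∃ π' : Equiv.Perm X, Equiv.Perm.sign π' = 1 ∧
      O.map π'.toEmbedding = O.map π.toEmbedding := by
  rcases Int.units_eq_one_or (Equiv.Perm.sign π) with h | h
  · exact ⟨π, h, rfl⟩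
  obtain ⟨a, b, hab, hO⟩ : ∃ a b : X, a ≠ b ∧ (a ∈ O ↔ b ∈ O) := by
    by_cases h1 : 1 < O.card
    · obtain ⟨a, ha, b, hb, hab⟩ := Finset.one_lt_card.1 h1
      exact ⟨a, b, hab, iff_of_true ha hb⟩
    · have h2 : 1 < (Finset.univ \ O).card := by
        rw [Finset.card_sdiff_of_subset (Finset.subset_univ O), Finset.card_univ]
        omega
      obtain ⟨a, ha, b, hb, hab⟩ := Finset.one_lt_card.1 h2
      exact ⟨a, b, hab, iff_of_false (Finset.mem_sdiff.1 ha).2 (Finset.mem_sdiff.1 hb).2⟩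
  refine ⟨π * Equiv.swap a b, ?_, ?_⟩
  · rw [Equiv.Perm.sign_mul, h, Equiv.Perm.sign_swap hab]
    rfl
  · ext z
    rw [Finset.mem_map_equiv, Finset.mem_map_equiv]
    show (Equiv.swap a b).symm (π.symm z) ∈ O ↔ π.symm z ∈ O
    rw [Equiv.symm_swap]
    generalize π.symm z = y
    by_cases hya : y = a
    · rw [hya, Equiv.swap_apply_left]
      exact hO.symm
    · by_cases hyb : y = b
      · rw [hyb, Equiv.swap_apply_right]
        exact hO
      · rw [Equiv.swap_apply_of_ne_of_ne hya hyb]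

theorem spanning_of_set {p : ℕ} {f : ℚ[X]} (hfull : ContainsAlternating f)
    (hcard : 3 ≤ Fintype.card (f.rootSet Qb))
    {E : IntermediateField ℚ Qb} (O : Finset (f.rootSet Qb))
    (hO : ∀ x y : f.rootSet Qb, minpoly E (x : Qb) = minpoly E (y : Qb) → (x ∈ O ↔ y ∈ O))
    (hne : O.Nonempty) (hO' : O ≠ Finset.univ) :
    Spanning p {E} f := by
  classical
  refine ⟨⟨E, rfl⟩, ?_⟩
  set S := Submodule.span (ZMod p) {c : f.rootSet Qb → ZMod p | ∃ E' ∈ ({E} : Set (IntermediateField ℚ Qb)),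
    ∃ g : Gal(Qb/ℚ), c ∈ factorFun p f (cj g E')} with hS
  -- the indicator functions
  let ind : Finset (f.rootSet Qb) → f.rootSet Qb → ZMod p := fun A x => if x ∈ A then 1 else 0
  have hindp : ∀ (A : Finset (f.rootSet Qb)) (z : f.rootSet Qb), z ∈ A → ind A z = 1 :=
    fun A z hz => if_pos hz
  have hindn : ∀ (A : Finset (f.rootSet Qb)) (z : f.rootSet Qb), z ∉ A → ind A z = 0 :=
    fun A z hz => if_neg hz
  have hind : ∀ π : Equiv.Perm (f.rootSet Qb), ind (O.map π.toEmbedding) ∈ S := by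
    intro π₀
    obtain ⟨π, hπ, hππ⟩ := exists_even hcard O π₀
    rw [← hππ]
    obtain ⟨g, hg⟩ := hfull π (by rw [← hπ])
    apply Submodule.subset_span
    refine ⟨E, rfl, g, fun x y hxy => ?_⟩
    obtain ⟨h, hh, h1⟩ := (minpoly_iff _ _ _).1 hxy
    have hsymm : ∀ z : f.rootSet Qb, ((π.symm z : f.rootSet Qb) : Qb) = g⁻¹ z := by
      intro z
      have h2 := hg (π.symm z)
      rw [Equiv.apply_symm_apply] at h2
      rw [← h2, ← AlgEquiv.mul_apply, inv_mul_cancel, AlgEquiv.one_apply]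
    have h2 : minpoly E ((π.symm x : f.rootSet Qb) : Qb) = minpoly E ((π.symm y : f.rootSet Qb) : Qb) := by
      rw [minpoly_iff]
      refine ⟨g⁻¹ * h * g, of_mem_cj_fix hh, ?_⟩
      have h3 : g (g⁻¹ (y : Qb)) = y := by
        rw [← AlgEquiv.mul_apply, mul_inv_cancel, AlgEquiv.one_apply]
      rw [hsymm, hsymm, AlgEquiv.mul_apply, AlgEquiv.mul_apply, h3, h1]
    have h3 := hO _ _ h2
    have h4 : ∀ z, z ∈ O.map π.toEmbedding ↔ π.symm z ∈ O := by
      intro z
      rw [Finset.mem_map_equiv]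
    by_cases h5 : x ∈ O.map π.toEmbedding
    · rw [hindp _ _ h5, hindp _ _ ((h4 y).2 (h3.1 ((h4 x).1 h5)))]
    · rw [hindn _ _ h5, hindn _ _ (fun h6 => h5 ((h4 x).2 (h3.2 ((h4 y).1 h6))))]
  obtain ⟨a, ha⟩ := hne
  obtain ⟨b, hb⟩ : ∃ b, b ∉ O := by
    by_contra hcon
    push Not at hcon
    exact hO' (Finset.eq_univ_iff_forall.2 hcon)
  have hab : a ≠ b := fun h => hb (h ▸ ha)
  -- the differences
  have hdiff : ∀ i j : f.rootSet Qb, i ≠ j → (Pi.single i 1 - Pi.single j 1 : f.rootSet Qb → ZMod p) ∈ S := by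
    intro i j hij
    -- a permutation with a to i, b to j
    let π : Equiv.Perm (f.rootSet Qb) := (Equiv.swap (Equiv.swap a i b) j) * Equiv.swap a i
    have hbi : Equiv.swap a i b ≠ i := by
      intro h
      have h2 : Equiv.swap a i b = Equiv.swap a i a := by rw [h, Equiv.swap_apply_left]
      exact hab ((Equiv.swap a i).injective h2).symm
    have h1 : π a = i := by
      show Equiv.swap (Equiv.swap a i b) j (Equiv.swap a i a) = i
      rw [Equiv.swap_apply_left, Equiv.swap_apply_of_ne_of_ne hbi.symm hij]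
    have h2 : π b = j := by
      show Equiv.swap (Equiv.swap a i b) j (Equiv.swap a i b) = j
      rw [Equiv.swap_apply_left]
    have h3 := S.sub_mem (hind π) (hind (Equiv.swap i j * π))
    have h4 : ind (O.map π.toEmbedding) - ind (O.map (Equiv.swap i j * π).toEmbedding) =
        (Pi.single i 1 - Pi.single j 1 : f.rootSet Qb → ZMod p) := by
      have hi : i ∈ O.map π.toEmbedding := by
        rw [Finset.mem_map_equiv]
        have : π.symm i = a := by rw [Equiv.symm_apply_eq, h1]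
        rw [this]
        exact ha
      have hj : j ∉ O.map π.toEmbedding := by
        rw [Finset.mem_map_equiv]
        have : π.symm j = b := by rw [Equiv.symm_apply_eq, h2]
        rw [this]
        exact hb
      have h5 : ∀ z, z ∈ O.map (Equiv.swap i j * π).toEmbedding ↔
          Equiv.swap i j z ∈ O.map π.toEmbedding := by
        intro z
        rw [Finset.mem_map_equiv, Finset.mem_map_equiv]
        rfl
      funext z
      show ind (O.map π.toEmbedding) z - ind (O.map (Equiv.swap i j * π).toEmbedding) z =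
        (Pi.single i 1 : f.rootSet Qb → ZMod p) z - (Pi.single j 1 : f.rootSet Qb → ZMod p) z
      by_cases hzi : z = i
      · subst hzi
        have h6 : z ∉ O.map (Equiv.swap z j * π).toEmbedding := by
          rw [h5, Equiv.swap_apply_left]
          exact hj
        rw [hindp _ _ hi, hindn _ _ h6, Pi.single_eq_same, Pi.single_eq_of_ne hij]
      · by_cases hzj : z = j
        · subst hzj
          have h6 : z ∈ O.map (Equiv.swap i z * π).toEmbedding := by
            rw [h5, Equiv.swap_apply_right]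
            exact hi
          rw [hindn _ _ hj, hindp _ _ h6, Pi.single_eq_same, Pi.single_eq_of_ne hij.symm]
        · have h6 : z ∈ O.map (Equiv.swap i j * π).toEmbedding ↔ z ∈ O.map π.toEmbedding := by
            rw [h5, Equiv.swap_apply_of_ne_of_ne hzi hzj]
          rw [Pi.single_eq_of_ne hzi, Pi.single_eq_of_ne hzj]
          by_cases h7 : z ∈ O.map π.toEmbedding
          · rw [hindp _ _ h7, hindp _ _ (h6.2 h7), sub_self, sub_self]
          · rw [hindn _ _ h7, hindn _ _ (fun h8 => h7 (h6.1 h8))]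
    rwa [h4] at h3
  intro c hc
  have h1 : c = ∑ i, c i • (Pi.single i 1 - Pi.single a 1 : f.rootSet Qb → ZMod p) := by
    simp only [smul_sub, Finset.sum_sub_distrib]
    rw [← Finset.sum_smul, hc, zero_smul, sub_zero]
    conv_lhs => rw [← Finset.univ_sum_single c]
    refine Finset.sum_congr rfl fun i _ => ?_
    rw [← Pi.single_smul, smul_eq_mul, mul_one]
  rw [h1]
  refine S.sum_mem fun i _ => S.smul_mem _ ?_
  by_cases hia : i = a
  · subst hia
    rw [sub_self]
    exact S.zero_mem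
  · exact hdiff i a hia

end Pool.Agent.U463.MD
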