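import Pool.Agent.U463.MD.Red

/-!
# The descent theorem with an explicit inequality
-/

set_option autoImplicit false

namespace Pool.Agent.U463.MD

open Subgroup Module Pool.Agent.Q60.MU

variable {𝔾 : Type} [Group 𝔾]

theorem conj_inf {L D : Subgroup 𝔾} (hDn : D.Normal) (g : 𝔾) :
    (L ⊓ D).map (MulAut.conj g).toMonoidHom = L.map (MulAut.conj g).toMonoidHom ⊓ D := by
  ext x
  constructor
  · rintro ⟨y, ⟨hy, hyD⟩, rfl⟩
    exact ⟨⟨y, hy, rfl⟩, hDn.conj_mem y hyD g⟩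
  · rintro ⟨⟨y, hy, rfl⟩, hyD⟩
    refine ⟨y, ⟨hy, ?_⟩, rfl⟩
    have h3 := hDn.conj_mem _ hyD g⁻¹
    have h4 : g⁻¹ * ((MulAut.conj g).toMonoidHom y) * g⁻¹⁻¹ = y := by
      show g⁻¹ * (g * y * g⁻¹) * g⁻¹⁻¹ = y
      group
    rwa [h4] at h3

/-- the constant of the descent theorem -/
def dcst (n t s : ℕ) : ℕ := max (n * (cst n (n * t) + 1) ^ (n * s)) (n * s)

theorem bound_le {n t s l C : ℕ} (hC : 1 ≤ C) (hl : l ≤ s) :
    n * (cst n (n * t) * C) ^ (n * l) ≤ dcst n t s * C ^ dcst n t s := by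
  have h1 : (cst n (n * t) * C) ^ (n * l) ≤ ((cst n (n * t) + 1) * C) ^ (n * s) := by
    refine (Nat.pow_le_pow_left (Nat.mul_le_mul_right C (Nat.le_succ _)) _).trans ?_
    exact Nat.pow_le_pow_right (Nat.mul_pos (Nat.succ_pos _) hC) (Nat.mul_le_mul_left _ hl)
  refine (Nat.mul_le_mul_left n h1).trans ?_
  rw [mul_pow, ← mul_assoc]
  exact Nat.mul_le_mul (le_max_left _ _) (Nat.pow_le_pow_right hC (le_max_right _ _))

/-- **The descent inequality.** -/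
theorem descentQ [TopologicalSpace 𝔾] [ContinuousMul 𝔾] {p : ℕ} [Fact p.Prime] {Ω : Type}
    [MulAction 𝔾 Ω] {I : Ω → Subgroup 𝔾}
    (hI : ∀ (g : 𝔾) (w : Ω), ∀ x ∈ I w, g * x * g⁻¹ ∈ I (g • w))
    {D : Subgroup 𝔾} (hDn : D.Normal) (hDo : IsOpen (D : Set 𝔾))
    (hDf : D.index ≠ 0) {K H : Subgroup 𝔾} (hKn : K.Normal)
    (hKo : IsOpen (K : Set 𝔾)) (hKf : K.index ≠ 0) (hKH : K ≤ H) {t : ℕ}
    {T : Finset Ω} (hTt : T.card ≤ t)
    (hT : ∀ w, I w ⊓ D ≤ K ∨ ∃ u ∈ T, ∃ d ∈ D, w = d • u)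
    {𝓓 : Set (Subgroup 𝔾)} (h𝓓 : ∀ L ∈ 𝓓, K ≤ L)
    (hvec : ∀ (S : Type) [AddCommGroup S] [Module (ZMod p) S] [Module.Finite (ZMod p) S]
      (τ : Representation (ZMod p) 𝔾 S), (∀ g ∈ K, ∀ x, τ g x = x) →
      (∃ v : S, v ≠ 0 ∧ H ≤ stab τ v) →
      ∃ L ∈ 𝓓, ∃ v : S, v ≠ 0 ∧ L ≤ stab τ v)
    {C : ℕ} (hC1 : 1 ≤ C) (hC : ∀ L ∈ 𝓓, RankLe p I (L ⊓ D) C) :
    RankLe p I (H ⊓ D) (dcst K.index t (finite_ge hKn hKf).toFinset.card *
      C ^ dcst K.index t (finite_ge hKn hKf).toFinset.card) := by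
  classical
  -- the finite set of subgroups with bounded ranks
  have hfin : {L : Subgroup 𝔾 | K ≤ L ∧ RankLe p I (L ⊓ D) C}.Finite :=
    (finite_ge hKn hKf).subset fun L hL => hL.1
  set 𝓛 := hfin.toFinset with h𝓛
  have hmem : ∀ L, L ∈ 𝓛 ↔ K ≤ L ∧ RankLe p I (L ⊓ D) C := fun L => by
    rw [h𝓛, Set.Finite.mem_toFinset]
    rfl
  have hcard : 𝓛.card ≤ (finite_ge hKn hKf).toFinset.card := by
    apply Finset.card_le_card
    intro L hL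
    rw [Set.Finite.mem_toFinset]
    exact ((hmem L).1 hL).1
  have h1 : (K ⊓ D).relIndex D = K.relIndex D := inf_relIndex_right K _
  have h2 : K.relIndex D ∣ K.index := relIndex_dvd_index_of_normal K _
  have h3 : (K ⊓ D).relIndex D ≠ 0 := by
    rw [h1]
    intro h
    rw [h] at h2
    exact hKf (Nat.eq_zero_of_zero_dvd h2)
  have h4 : (K ⊓ D).relIndex D ≤ K.index := by
    rw [h1]
    exact Nat.le_of_dvd (Nat.pos_of_ne_zero hKf) h2
  have hdet : DetectsH (ZMod p) ((K ⊓ D).subgroupOf D) ((H ⊓ D).subgroupOf D)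
      (𝓛.image fun L => L ⊓ D) (fun L => L.subgroupOf D) := by
    intro S _ _ _ σ htriv hco
    rw [inf_subgroupOf_right] at hco
    obtain ⟨L, g, hL, hqc⟩ := exists_vectorH σ hDf hKn hKH hco
      (fun L => K ≤ L ∧ RankLe p I (L ⊓ D) C) (fun Q _ _ _ τ hτ hs => by
        obtain ⟨L, hL, hv⟩ := hvec Q τ hτ hs
        exact ⟨L, ⟨h𝓓 L hL, hC L hL⟩, hv⟩)
    have h5 : L.map (MulAut.conj g).toMonoidHom ∈ 𝓛 := by
      rw [hmem]
      refine ⟨fun x hx => ?_, ?_⟩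
      · refine ⟨g⁻¹ * x * g⁻¹⁻¹, hL.1 (hKn.conj_mem x hx g⁻¹), ?_⟩
        show g * (g⁻¹ * x * g⁻¹⁻¹) * g⁻¹ = x
        group
      · rw [← conj_inf hDn]
        exact hL.2.conj hI g
    refine ⟨L.map (MulAut.conj g).toMonoidHom ⊓ D, Finset.mem_image.2 ⟨_, h5, rfl⟩, ?_⟩
    show coinv σ ((L.map (MulAut.conj g).toMonoidHom ⊓ D).subgroupOf D) ≠ ⊤
    rw [inf_subgroupOf_right]
    exact hqc
  have hKmo : IsOpen ((K ⊓ D : Subgroup 𝔾) : Set 𝔾) := by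
    rw [coe_inf]
    exact hKo.inter hDo
  have h5 := main_ineqH (p := p) hI (K := K ⊓ D) (H := H ⊓ D) (D := D) inf_le_right
    (fun d hd x hx => ⟨hKn.conj_mem x hx.1 d, D.mul_mem (D.mul_mem hd hx.2)
      (D.inv_mem hd)⟩) hKmo (inf_le_inf_right _ hKH) inf_le_right h3 h4
    (𝓛.image fun L => L ⊓ D) (by
      intro L hL
      obtain ⟨M, hM, rfl⟩ := Finset.mem_image.1 hL
      exact ⟨inf_le_inf_right _ ((hmem M).1 hM).1, inf_le_right⟩) hdet T hTt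
    (fun w => (hT w).imp (fun h => le_inf h inf_le_right) id) (C := C) (by
      intro L hL
      obtain ⟨M, hM, rfl⟩ := Finset.mem_image.1 hL
      exact ((hmem M).1 hM).2)
  exact h5.mono (bound_le hC1 (Finset.card_image_le.trans hcard))

end Pool.Agent.U463.MD
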