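import Pool.Agent.Q60.MU.Reduction
import Pool.Agent.U463.MD.Main

/-!
# The descent theorem for a tower
-/

set_option autoImplicit false

namespace Pool.Agent.U463.MD

open Subgroup Module Pool.Agent.Q60.MU

variable {𝔾 : Type} [Group 𝔾] {J : Type}

/-- The ranks are bounded in the tower. -/
def Bd [TopologicalSpace 𝔾] (p : ℕ) {Ω : Type} (I : Ω → Subgroup 𝔾) (Dm : J → Subgroup 𝔾)
    (U : Subgroup 𝔾) : Prop := ∃ C, ∀ m, RankLe p I (U ⊓ Dm m) C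

theorem Bd.conj [TopologicalSpace 𝔾] [ContinuousMul 𝔾] {p : ℕ} {Ω : Type}
    [MulAction 𝔾 Ω] {I : Ω → Subgroup 𝔾}
    (hI : ∀ (g : 𝔾) (w : Ω), ∀ x ∈ I w, g * x * g⁻¹ ∈ I (g • w)) {Dm : J → Subgroup 𝔾}
    (hDn : ∀ m, (Dm m).Normal) {L : Subgroup 𝔾} (h : Bd p I Dm L) (g : 𝔾) :
    Bd p I Dm (L.map (MulAut.conj g).toMonoidHom) := by
  obtain ⟨C, hC⟩ := h
  refine ⟨C, fun m => ?_⟩
  have h1 := (hC m).conj hI g
  have h2 : (L ⊓ Dm m).map (MulAut.conj g).toMonoidHom =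
      L.map (MulAut.conj g).toMonoidHom ⊓ Dm m := by
    ext x
    constructor
    · rintro ⟨y, ⟨hy, hyD⟩, rfl⟩
      exact ⟨⟨y, hy, rfl⟩, (hDn m).conj_mem y hyD g⟩
    · rintro ⟨⟨y, hy, rfl⟩, hyD⟩
      refine ⟨y, ⟨hy, ?_⟩, rfl⟩
      have h3 := (hDn m).conj_mem _ hyD g⁻¹
      have h4 : g⁻¹ * ((MulAut.conj g).toMonoidHom y) * g⁻¹⁻¹ = y := by
        show g⁻¹ * (g * y * g⁻¹) * g⁻¹⁻¹ = y
        group
      rwa [h4] at h3
  rwa [h2] at h1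

/-- **The descent theorem.** -/
theorem descent [TopologicalSpace 𝔾] [ContinuousMul 𝔾] {p : ℕ} [Fact p.Prime] {Ω : Type}
    [MulAction 𝔾 Ω] {I : Ω → Subgroup 𝔾}
    (hI : ∀ (g : 𝔾) (w : Ω), ∀ x ∈ I w, g * x * g⁻¹ ∈ I (g • w))
    {Dm : J → Subgroup 𝔾} (hDn : ∀ m, (Dm m).Normal) (hDo : ∀ m, IsOpen (Dm m : Set 𝔾))
    (hDf : ∀ m, (Dm m).index ≠ 0) {K H : Subgroup 𝔾} (hKn : K.Normal)
    (hKo : IsOpen (K : Set 𝔾)) (hKf : K.index ≠ 0) (hKH : K ≤ H)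
    (hram : ∃ t, ∀ m, ∃ T : Finset Ω, T.card ≤ t ∧
        ∀ w, I w ⊓ Dm m ≤ K ∨ ∃ u ∈ T, ∃ d ∈ Dm m, w = d • u)
    (hvec : ∀ (S : Type) [AddCommGroup S] [Module (ZMod p) S] [Module.Finite (ZMod p) S]
      (τ : Representation (ZMod p) 𝔾 S), (∀ g ∈ K, ∀ x, τ g x = x) →
      (∃ v : S, v ≠ 0 ∧ H ≤ stab τ v) →
      ∃ L, (K ≤ L ∧ Bd p I Dm L) ∧ ∃ v : S, v ≠ 0 ∧ L ≤ stab τ v) :
    Bd p I Dm H := by
  classical
  obtain ⟨t, ht⟩ := hram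
  -- the finite set of subgroups with bounded ranks
  have hfin : {L : Subgroup 𝔾 | K ≤ L ∧ Bd p I Dm L}.Finite :=
    (finite_ge hKn hKf).subset fun L hL => hL.1
  set 𝓛 := hfin.toFinset with h𝓛
  have hmem : ∀ L, L ∈ 𝓛 ↔ K ≤ L ∧ Bd p I Dm L := fun L => by
    rw [h𝓛, Set.Finite.mem_toFinset]
    rfl
  have hC : ∃ C, ∀ L ∈ 𝓛, ∀ m, RankLe p I (L ⊓ Dm m) C := by
    choose! c hc using fun L (hL : L ∈ 𝓛) => ((hmem L).1 hL).2
    exact ⟨𝓛.sup c, fun L hL m => (hc L hL m).mono (Finset.le_sup hL)⟩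
  obtain ⟨C, hC⟩ := hC
  refine ⟨K.index * (cst K.index (K.index * t) * C + 1) ^ (K.index * 𝓛.card), fun m => ?_⟩
  obtain ⟨T, hTt, hT⟩ := ht m
  have h1 : (K ⊓ Dm m).relIndex (Dm m) = K.relIndex (Dm m) := inf_relIndex_right K _
  have h2 : K.relIndex (Dm m) ∣ K.index := relIndex_dvd_index_of_normal K _
  have h3 : (K ⊓ Dm m).relIndex (Dm m) ≠ 0 := by
    rw [h1]
    intro h
    rw [h] at h2
    exact hKf (Nat.eq_zero_of_zero_dvd h2)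
  have h4 : (K ⊓ Dm m).relIndex (Dm m) ≤ K.index := by
    rw [h1]
    exact Nat.le_of_dvd (Nat.pos_of_ne_zero hKf) h2
  have hdet : DetectsH (ZMod p) ((K ⊓ Dm m).subgroupOf (Dm m)) ((H ⊓ Dm m).subgroupOf (Dm m))
      (𝓛.image fun L => L ⊓ Dm m) (fun L => L.subgroupOf (Dm m)) := by
    intro S _ _ _ σ htriv hco
    rw [inf_subgroupOf_right] at hco
    obtain ⟨L, g, hL, hqc⟩ := exists_vectorH σ (hDf m) hKn hKH hco
      (fun L => K ≤ L ∧ Bd p I Dm L) (fun Q _ _ _ τ hτ hs => hvec Q τ hτ hs)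
    have h5 : L.map (MulAut.conj g).toMonoidHom ∈ 𝓛 := by
      rw [hmem]
      refine ⟨fun x hx => ?_, hL.2.conj hI hDn g⟩
      refine ⟨g⁻¹ * x * g⁻¹⁻¹, hL.1 (hKn.conj_mem x hx g⁻¹), ?_⟩
      show g * (g⁻¹ * x * g⁻¹⁻¹) * g⁻¹ = x
      group
    refine ⟨L.map (MulAut.conj g).toMonoidHom ⊓ Dm m, Finset.mem_image.2 ⟨_, h5, rfl⟩, ?_⟩
    show coinv σ ((L.map (MulAut.conj g).toMonoidHom ⊓ Dm m).subgroupOf (Dm m)) ≠ ⊤
    rw [inf_subgroupOf_right]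
    exact hqc
  have hKmo : IsOpen ((K ⊓ Dm m : Subgroup 𝔾) : Set 𝔾) := by
    rw [coe_inf]
    exact hKo.inter (hDo m)
  have h5 := main_ineqH (p := p) hI (K := K ⊓ Dm m) (H := H ⊓ Dm m) (D := Dm m) inf_le_right
    (fun d hd x hx => ⟨hKn.conj_mem x hx.1 d, (Dm m).mul_mem ((Dm m).mul_mem hd hx.2)
      ((Dm m).inv_mem hd)⟩) hKmo (inf_le_inf_right _ hKH) inf_le_right h3 h4
    (𝓛.image fun L => L ⊓ Dm m) (by
      intro L hL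
      obtain ⟨M, hM, rfl⟩ := Finset.mem_image.1 hL
      exact ⟨inf_le_inf_right _ ((hmem M).1 hM).1, inf_le_right⟩) hdet T hTt
    (fun w => (hT w).imp (fun h => le_inf h inf_le_right) id) (C := C) (by
      intro L hL
      obtain ⟨M, hM, rfl⟩ := Finset.mem_image.1 hL
      exact hC M hM m)
  refine h5.mono (Nat.mul_le_mul_left _ ?_)
  refine (Nat.pow_le_pow_left (Nat.le_succ _) _).trans (Nat.pow_le_pow_right (Nat.succ_pos _) ?_)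
  exact Nat.mul_le_mul_left _ Finset.card_image_le

end Pool.Agent.U463.MD
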